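import Mathlib

/-!
# Divided differences of an integer sequence plus a polynomial, all divisible by a large number
-/

set_option autoImplicit false

namespace Pool.Agent.EKF

open Finset Polynomial

/-- the product of the differences -/
def wz (s : Finset ℕ) (i : ℕ) : ℤ := ∏ j ∈ s.erase i, ((i : ℤ) - j)

lemma wz_ne (s : Finset ℕ) (i : ℕ) : wz s i ≠ 0 := by
  unfold wz
  rw [prod_ne_zero_iff]
  intro j hj
  have h := (mem_erase.mp hj).1
  intro h0
  apply h
  have : (i : ℤ) = j := by linarith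
  exact_mod_cast this.symm

lemma wz_cast (s : Finset ℕ) (i : ℕ) : ((wz s i : ℤ) : ℚ) = ∏ j ∈ s.erase i, ((i : ℚ) - j) := by
  unfold wz
  push_cast
  rfl

lemma abs_wz_le (s : Finset ℕ) (D L x : ℕ) (hs : s.card = D + 1)
    (hx : ∀ n ∈ s, x ≤ n ∧ n < x + L) (i : ℕ) (hi : i ∈ s) : |wz s i| ≤ (L : ℤ) ^ D := by
  unfold wz
  rw [abs_prod]
  have hc : (s.erase i).card = D := by rw [card_erase_of_mem hi, hs]; rfl
  have h : ∏ j ∈ s.erase i, |((i : ℤ) - j)| ≤ ∏ _j ∈ s.erase i, (L : ℤ) := by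
    refine prod_le_prod (fun j _ => abs_nonneg _) (fun j hj => ?_)
    have h1 := hx i hi
    have h2 := hx j (mem_of_mem_erase hj)
    rw [abs_le]
    constructor <;> omega
  rw [prod_const, hc] at h
  exact h

theorem divdiff (D : ℕ) (hD : 1 ≤ D) (Q : ℚ[X]) (hQ : Q.natDegree ≤ D) (s : Finset ℕ)
    (hs : s.card = D + 1) (v G : ℕ → ℤ) (hG : ∀ n ∈ s, (G n : ℚ) = Q.eval (n : ℚ))
    (M : ℤ) (hM : ∀ n ∈ s, M ∣ v n + G n) (x L : ℕ) (hx : ∀ n ∈ s, x ≤ n ∧ n < x + L)
    (p0 Y : ℤ) (hv : ∀ n ∈ s, p0 ≤ v n ∧ v n ≤ p0 + Y)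
    (hbig : ((D : ℚ) + 1) * (L : ℚ) ^ (D * D) * Y + |Q.coeff D| * (L : ℚ) ^ (D * (D + 1)) < M) :
    ∑ i ∈ s, ((v i : ℚ) - p0) / ((wz s i : ℤ) : ℚ) = - Q.coeff D := by
  classical
  have hinj : Set.InjOn (fun n : ℕ => (n : ℚ)) (s : Set ℕ) := fun a _ b _ h => by simpa using h
  have hdegQ : Q.degree < s.card := by
    rw [hs]
    refine lt_of_le_of_lt degree_le_natDegree ?_
    exact_mod_cast Nat.lt_succ_of_le hQ
  have hQ1 := Lagrange.coeff_eq_sum hinj hdegQ
  have hdeg1 : (1 : ℚ[X]).degree < s.card := by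
    rw [hs, degree_one]
    exact_mod_cast Nat.succ_pos D
  have hone := Lagrange.coeff_eq_sum hinj hdeg1
  rw [hs, Nat.add_sub_cancel] at hQ1 hone
  have hc1 : (1 : ℚ[X]).coeff D = 0 := by
    rw [coeff_one, if_neg (by omega)]
  rw [hc1] at hone
  simp only [eval_one, ← wz_cast] at hone
  simp only [← wz_cast] at hQ1
  set c : ℕ → ℤ := fun i => ∏ k ∈ s.erase i, wz s k with hc
  set V : ℤ := ∏ k ∈ s, wz s k with hV
  have hVne : V ≠ 0 := prod_ne_zero_iff.mpr fun k _ => wz_ne s k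
  have hVc : ∀ i ∈ s, V = wz s i * c i := fun i hi => (mul_prod_erase s (wz s) hi).symm
  have hVq : ∀ i ∈ s, ((c i : ℤ) : ℚ) = (V : ℚ) / ((wz s i : ℤ) : ℚ) := by
    intro i hi
    have h1 : ((wz s i : ℤ) : ℚ) ≠ 0 := by exact_mod_cast wz_ne s i
    rw [eq_div_iff h1, hVc i hi]
    push_cast
    ring
  set T : ℤ := ∑ i ∈ s, c i * (v i + G i) with hT
  have hMT : M ∣ T := dvd_sum fun i hi => (hM i hi).mul_left _
  have hTq : (T : ℚ) = (V : ℚ) * (∑ i ∈ s, ((v i : ℚ) - p0) / ((wz s i : ℤ) : ℚ) + Q.coeff D) := by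
    have h1 : (T : ℚ) = ∑ i ∈ s, ((V : ℚ) * (((v i : ℚ) - p0) / ((wz s i : ℤ) : ℚ)) +
        (V : ℚ) * (Q.eval (i : ℚ) / ((wz s i : ℤ) : ℚ)) + (V : ℚ) * p0 * (1 / ((wz s i : ℤ) : ℚ))) := by
      rw [hT]
      push_cast
      refine sum_congr rfl fun i hi => ?_
      rw [hVq i hi, hG i hi]
      ring
    rw [h1, sum_add_distrib, sum_add_distrib, ← mul_sum, ← mul_sum, ← mul_sum, ← hone, ← hQ1]
    ring
  -- size of T
  have habs : |(T : ℚ)| ≤ ((D : ℚ) + 1) * (L : ℚ) ^ (D * D) * Y + |Q.coeff D| * (L : ℚ) ^ (D * (D + 1)) := by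
    have hsum : (T : ℚ) = ∑ i ∈ s, ((c i : ℤ) : ℚ) * ((v i : ℚ) - p0) + (V : ℚ) * Q.coeff D := by
      rw [hTq, mul_add, mul_sum]
      congr 1
      refine sum_congr rfl fun i hi => ?_
      rw [hVq i hi]
      ring
    have hcb : ∀ i ∈ s, |((c i : ℤ) : ℚ)| ≤ (L : ℚ) ^ (D * D) := by
      intro i hi
      have h1 : |c i| ≤ (L : ℤ) ^ (D * D) := by
        rw [hc]
        simp only
        rw [abs_prod]
        have h2 : ∏ k ∈ s.erase i, |wz s k| ≤ ∏ _k ∈ s.erase i, (L : ℤ) ^ D :=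
          prod_le_prod (fun k _ => abs_nonneg _)
            (fun k hk => abs_wz_le s D L x hs hx k (mem_of_mem_erase hk))
        rw [prod_const, card_erase_of_mem hi, hs, Nat.add_sub_cancel, ← pow_mul] at h2
        exact h2
      exact_mod_cast h1
    have hVb : |(V : ℚ)| ≤ (L : ℚ) ^ (D * (D + 1)) := by
      have h1 : |V| ≤ (L : ℤ) ^ (D * (D + 1)) := by
        rw [hV, abs_prod]
        have h2 : ∏ k ∈ s, |wz s k| ≤ ∏ _k ∈ s, (L : ℤ) ^ D :=
          prod_le_prod (fun k _ => abs_nonneg _) (fun k hk => abs_wz_le s D L x hs hx k hk)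
        rw [prod_const, hs, ← pow_mul] at h2
        exact h2
      exact_mod_cast h1
    rw [hsum]
    refine (abs_add_le _ _).trans (add_le_add ?_ ?_)
    · refine (abs_sum_le_sum_abs _ _).trans ?_
      have h2 : ∀ i ∈ s, |((c i : ℤ) : ℚ) * ((v i : ℚ) - p0)| ≤ (L : ℚ) ^ (D * D) * Y := by
        intro i hi
        rw [abs_mul]
        have h3 := hv i hi
        have h4 : |(v i : ℚ) - p0| ≤ Y := by
          rw [abs_of_nonneg (by have : (p0 : ℚ) ≤ v i := by exact_mod_cast h3.1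
                                linarith)]
          have : (v i : ℚ) ≤ p0 + Y := by exact_mod_cast h3.2
          linarith
        exact mul_le_mul (hcb i hi) h4 (abs_nonneg _) (by positivity)
      refine (sum_le_card_nsmul _ _ _ h2).trans ?_
      rw [hs, nsmul_eq_mul]
      push_cast
      apply le_of_eq
      ring
    · rw [abs_mul, mul_comm]
      exact mul_le_mul_of_nonneg_left hVb (abs_nonneg _)
  have hT0 : T = 0 := by
    apply Int.eq_zero_of_abs_lt_dvd hMT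
    have h1 : |(T : ℚ)| < M := lt_of_le_of_lt habs hbig
    exact_mod_cast h1
  rw [hT0] at hTq
  have hVq0 : (V : ℚ) ≠ 0 := by exact_mod_cast hVne
  have h5 : ∑ i ∈ s, ((v i : ℚ) - p0) / ((wz s i : ℤ) : ℚ) + Q.coeff D = 0 := by
    have h6 : (V : ℚ) * (∑ i ∈ s, ((v i : ℚ) - p0) / ((wz s i : ℤ) : ℚ) + Q.coeff D) = 0 := by
      rw [← hTq]; simp
    exact (mul_eq_zero.mp h6).resolve_left hVq0
  linarith

/-- points at pairwise distance `≥ m` -/
theorem spaced (D : ℕ) (Q : ℚ[X]) (s : Finset ℕ) (hs : s.card = D + 1) (v : ℕ → ℤ)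
    (p0 Y : ℤ) (hv : ∀ n ∈ s, p0 ≤ v n ∧ v n ≤ p0 + Y)
    (hdd : ∑ i ∈ s, ((v i : ℚ) - p0) / ((wz s i : ℤ) : ℚ) = - Q.coeff D)
    (m : ℕ) (hm : 1 ≤ m) (hsp : ∀ i ∈ s, ∀ j ∈ s, i ≠ j → (m : ℤ) ≤ |(i : ℤ) - j|) :
    |Q.coeff D| * (m : ℚ) ^ D ≤ ((D : ℚ) + 1) * Y := by
  classical
  have hm0 : (0 : ℚ) < (m : ℚ) ^ D := by positivity
  have hw : ∀ i ∈ s, (m : ℚ) ^ D ≤ |((wz s i : ℤ) : ℚ)| := by
    intro i hi
    have h1 : (m : ℤ) ^ D ≤ |wz s i| := by
      unfold wz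
      rw [abs_prod]
      have h2 : ∏ _j ∈ s.erase i, (m : ℤ) ≤ ∏ j ∈ s.erase i, |((i : ℤ) - j)| :=
        prod_le_prod (fun j _ => by positivity)
          (fun j hj => hsp i hi j (mem_of_mem_erase hj) (fun h => (mem_erase.mp hj).1 h.symm))
      rw [prod_const, card_erase_of_mem hi, hs, Nat.add_sub_cancel] at h2
      exact h2
    exact_mod_cast h1
  have h1 : |Q.coeff D| ≤ ((D : ℚ) + 1) * Y / (m : ℚ) ^ D := by
    rw [← abs_neg, ← hdd]
    refine (abs_sum_le_sum_abs _ _).trans ?_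
    have h2 : ∀ i ∈ s, |((v i : ℚ) - p0) / ((wz s i : ℤ) : ℚ)| ≤ (Y : ℚ) / (m : ℚ) ^ D := by
      intro i hi
      rw [abs_div]
      have h3 := hv i hi
      have h4 : |(v i : ℚ) - p0| ≤ Y := by
        rw [abs_of_nonneg (by have : (p0 : ℚ) ≤ v i := by exact_mod_cast h3.1
                              linarith)]
        have : (v i : ℚ) ≤ p0 + Y := by exact_mod_cast h3.2
        linarith
      have hY : (0 : ℚ) ≤ Y := le_trans (abs_nonneg _) h4
      exact div_le_div₀ hY h4 hm0 (hw i hi)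
    refine (sum_le_card_nsmul _ _ _ h2).trans ?_
    rw [hs, nsmul_eq_mul]
    push_cast
    apply le_of_eq
    ring
  rwa [le_div_iff₀ hm0] at h1

/-- a finite set with more than `D m` elements contains `D + 1` elements at pairwise distance
`≥ m` -/
theorem exists_spaced (D m : ℕ) (S : Finset ℕ) (hS : D * m + 1 ≤ S.card) (hm : 1 ≤ m) :
    ∃ s ⊆ S, s.card = D + 1 ∧ ∀ i ∈ s, ∀ j ∈ s, i ≠ j → (m : ℤ) ≤ |(i : ℤ) - j| := by
  classical
  set f := S.orderEmbOfFin rfl with hf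
  have hlt : ∀ a : Fin (D + 1), (a : ℕ) * m < S.card := fun a => by
    have h1 : (a : ℕ) ≤ D := Nat.lt_succ_iff.mp a.2
    have h2 : (a : ℕ) * m ≤ D * m := Nat.mul_le_mul_right m h1
    omega
  set g : Fin (D + 1) → ℕ := fun a => f ⟨(a : ℕ) * m, hlt a⟩ with hg
  have hfd : ∀ k : ℕ, ∀ a b : Fin S.card, (a : ℕ) + k = b → (f a) + k ≤ f b := by
    intro k
    induction k with
    | zero =>
      intro a b hab
      have : a = b := Fin.ext (by simpa using hab)
      simp [this]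
    | succ k ih =>
      intro a b hab
      have hb : (a : ℕ) + k < S.card := by have := b.2; omega
      have h1 := ih a ⟨(a : ℕ) + k, hb⟩ rfl
      have h2 : f ⟨(a : ℕ) + k, hb⟩ < f b := f.strictMono (by
        rw [Fin.lt_def]
        simp only
        omega)
      omega
  have hgd : ∀ a b : Fin (D + 1), a < b → g a + m ≤ g b := by
    intro a b hab
    have h1 : (a : ℕ) + 1 ≤ b := hab
    have h2 : ((a : ℕ) + 1) * m ≤ b * m := Nat.mul_le_mul_right m h1
    have h3 := hfd ((b : ℕ) * m - (a : ℕ) * m) ⟨(a : ℕ) * m, hlt a⟩ ⟨(b : ℕ) * m, hlt b⟩ (by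
      simp only
      have : (a : ℕ) * m ≤ b * m := Nat.mul_le_mul_right m (by omega)
      omega)
    have h4 : m ≤ (b : ℕ) * m - (a : ℕ) * m := by
      rw [add_mul, one_mul] at h2
      omega
    simp only [hg]
    omega
  have hginj : Function.Injective g := by
    intro a b hab
    rcases lt_trichotomy a b with h | h | h
    · have := hgd a b h
      omega
    · exact h
    · have := hgd b a h
      omega
  refine ⟨univ.image g, ?_, ?_, ?_⟩
  · intro n hn
    obtain ⟨a, -, rfl⟩ := mem_image.mp hn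
    exact S.orderEmbOfFin_mem rfl _
  · rw [card_image_of_injective _ hginj, card_univ, Fintype.card_fin]
  · intro i hi j hj hij
    obtain ⟨a, -, rfl⟩ := mem_image.mp hi
    obtain ⟨b, -, rfl⟩ := mem_image.mp hj
    have hab : a ≠ b := fun h => hij (by rw [h])
    rcases lt_or_gt_of_ne hab with h | h
    · have h1 := hgd a b h
      rw [abs_sub_comm]
      refine le_trans ?_ (le_abs_self _)
      omega
    · have h1 := hgd b a h
      refine le_trans ?_ (le_abs_self _)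
      omega

end Pool.Agent.EKF
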