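import Pool.Agent.EKF.Alg

/-!
# Few solutions in a short block
-/

set_option autoImplicit false

namespace Pool.Agent.EKF

open Finset Polynomial

lemma two_points {v : ℕ → ℤ} (hv : StrictMono v) {s : Finset ℕ} (hs : s.card = 1 + 1) (p0 : ℤ) :
    0 < ∑ i ∈ s, ((v i : ℚ) - p0) / ((wz s i : ℤ) : ℚ) := by
  classical
  obtain ⟨a, b, hab, rfl⟩ := card_eq_two.mp hs
  wlog h : a < b generalizing a b with H
  · have h1 : b < a := lt_of_le_of_ne (not_lt.mp h) (Ne.symm hab)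
    have h2 := H b a hab.symm (by rw [pair_comm]; exact hs) h1
    rwa [pair_comm] at h2
  have hv1 : (v a : ℚ) < v b := by exact_mod_cast hv h
  have ha : wz {a, b} a = (a : ℤ) - b := by
    unfold wz
    rw [erase_insert (by simpa using hab), prod_singleton]
  have hb : wz {a, b} b = (b : ℤ) - a := by
    unfold wz
    rw [pair_comm, erase_insert (by simpa using hab.symm), prod_singleton]
  rw [sum_pair hab, ha, hb]
  have h3 : (0 : ℚ) < (b : ℚ) - a := by
    have : (a : ℚ) < b := by exact_mod_cast h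
    linarith
  push_cast
  have h4 : ((v a : ℚ) - p0) / ((a : ℚ) - b) + ((v b : ℚ) - p0) / ((b : ℚ) - a) =
      ((v b : ℚ) - v a) / ((b : ℚ) - a) := by
    have h5 : ((a : ℚ) - b) = -((b : ℚ) - a) := by ring
    rw [h5, div_neg, ← neg_div, ← add_div]
    congr 1
    ring
  rw [h4]
  exact div_pos (by linarith) h3

theorem block_card (Q : ℚ[X]) (hQi : ∀ m : ℤ, ∃ k : ℤ, Q.eval (m : ℚ) = k)
    (hlc : 0 < Q.leadingCoeff) : ∃ C0 : ℝ, 1 ≤ C0 ∧ ∀ v : ℕ → ℤ, StrictMono v →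
    ∀ (M x L : ℕ) (Y : ℤ), v (x + L) - v x ≤ Y →
    (((max Q.natDegree 1 : ℕ) : ℚ) + 1) * (L : ℚ) ^ ((max Q.natDegree 1) * (max Q.natDegree 1)) * Y +
      |Q.coeff (max Q.natDegree 1)| * (L : ℚ) ^ ((max Q.natDegree 1) * ((max Q.natDegree 1) + 1)) < M →
    ((((Finset.Ico x (x + L)).filter
      (fun n => (M : ℤ) ∣ v n + ⌊Q.eval (n : ℚ)⌋)).card : ℕ) : ℝ) ≤ C0 * (√(Y : ℝ) + 1) := by
  classical
  set D := max Q.natDegree 1 with hD
  have hD1 : 1 ≤ D := le_max_right _ _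
  have hDQ : Q.natDegree ≤ D := le_max_left _ _
  have hcoef : 0 ≤ Q.coeff D := by
    rcases eq_or_lt_of_le hDQ with h | h
    · rw [← h]; exact hlc.le
    · rw [coeff_eq_zero_of_natDegree_lt h]
  refine ⟨D * (√(((D : ℝ) + 1) / (Q.coeff D : ℝ)) + 1) + 1, by
    have : (0 : ℝ) ≤ D * (√(((D : ℝ) + 1) / (Q.coeff D : ℝ)) + 1) := by positivity
    linarith, ?_⟩
  intro v hv M x L Y hY hbig
  set S := (Finset.Ico x (x + L)).filter (fun n => (M : ℤ) ∣ v n + ⌊Q.eval (n : ℚ)⌋) with hS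
  have hY0 : 0 ≤ Y := by
    have h1 : v x ≤ v (x + L) := hv.monotone (Nat.le_add_right _ _)
    omega
  have hG : ∀ n : ℕ, ((⌊Q.eval (n : ℚ)⌋ : ℤ) : ℚ) = Q.eval (n : ℚ) := by
    intro n
    obtain ⟨k, hk⟩ := hQi n
    have h1 : Q.eval (n : ℚ) = k := by exact_mod_cast hk
    rw [h1, Int.floor_intCast]
  have hmem : ∀ n ∈ S, (x ≤ n ∧ n < x + L) ∧ (M : ℤ) ∣ v n + ⌊Q.eval (n : ℚ)⌋ := by
    intro n hn
    rw [hS, mem_filter, mem_Ico] at hn
    exact hn
  have hdd : ∀ s ⊆ S, s.card = D + 1 →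
      ∑ i ∈ s, ((v i : ℚ) - v x) / ((wz s i : ℤ) : ℚ) = - Q.coeff D := by
    intro s hs hc
    refine divdiff D hD1 Q hDQ s hc v (fun n => ⌊Q.eval (n : ℚ)⌋) (fun n _ => hG n) M
      (fun n hn => (hmem n (hs hn)).2) x L (fun n hn => (hmem n (hs hn)).1) (v x) Y
      (fun n hn => ?_) (by exact_mod_cast hbig)
    have h1 := (hmem n (hs hn)).1
    have h2 : v x ≤ v n := hv.monotone h1.1
    have h3 : v n ≤ v (x + L) := hv.monotone h1.2.le
    constructor
    · exact h2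
    · linarith
  have hsq : (0 : ℝ) ≤ √(Y : ℝ) := Real.sqrt_nonneg _
  rcases Nat.lt_or_ge 1 D with hD2 | hD2
  · -- degree at least two
    have hDe : D = Q.natDegree := by
      rcases le_total Q.natDegree 1 with h | h
      · rw [hD, max_eq_right h] at hD2; omega
      · rw [hD, max_eq_left h]
    have ha : 0 < Q.coeff D := by
      rw [hDe]; exact hlc
    have haR : (0 : ℝ) < (Q.coeff D : ℝ) := by exact_mod_cast ha
    set m : ℕ := ⌊√(((D : ℝ) + 1) * Y / (Q.coeff D : ℝ))⌋₊ + 1 with hm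
    have hcard : S.card ≤ D * m := by
      by_contra hcon
      push Not at hcon
      obtain ⟨s, hsS, hsc, hsp⟩ := exists_spaced D m S hcon (by omega)
      have h1 := spaced D Q s hsc v (v x) Y (fun n hn => by
        have h1 := (hmem n (hsS hn)).1
        have h2 : v x ≤ v n := hv.monotone h1.1
        have h3 : v n ≤ v (x + L) := hv.monotone h1.2.le
        exact ⟨h2, by linarith⟩) (hdd s hsS hsc) m (by omega) hsp
      rw [abs_of_pos ha] at h1
      have h1R : (Q.coeff D : ℝ) * (m : ℝ) ^ D ≤ ((D : ℝ) + 1) * Y := by exact_mod_cast h1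
      have hm1 : (1 : ℝ) ≤ m := by exact_mod_cast (by omega : 1 ≤ m)
      have h2 : (m : ℝ) ^ 2 ≤ (m : ℝ) ^ D := pow_le_pow_right₀ hm1 hD2
      have h3 : √(((D : ℝ) + 1) * Y / (Q.coeff D : ℝ)) < m := by
        rw [hm]; push_cast; exact Nat.lt_floor_add_one _
      have h4 : ((D : ℝ) + 1) * Y / (Q.coeff D : ℝ) < (m : ℝ) ^ 2 := by
        rw [Real.sqrt_lt' (by linarith)] at h3
        exact h3
      rw [div_lt_iff₀ haR] at h4
      nlinarith
    have h5 : (m : ℝ) ≤ √(((D : ℝ) + 1) / (Q.coeff D : ℝ)) * √(Y : ℝ) + 1 := by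
      rw [hm]
      push_cast
      have h6 : (⌊√(((D : ℝ) + 1) * Y / (Q.coeff D : ℝ))⌋₊ : ℝ) ≤ √(((D : ℝ) + 1) * Y / (Q.coeff D : ℝ)) :=
        Nat.floor_le (Real.sqrt_nonneg _)
      have h7 : √(((D : ℝ) + 1) * Y / (Q.coeff D : ℝ)) =
          √(((D : ℝ) + 1) / (Q.coeff D : ℝ)) * √(Y : ℝ) := by
        rw [← Real.sqrt_mul (by positivity)]
        congr 1
        ring
      linarith
    have h8 : (S.card : ℝ) ≤ D * m := by exact_mod_cast hcard
    have h9 : (0 : ℝ) ≤ √(((D : ℝ) + 1) / (Q.coeff D : ℝ)) := Real.sqrt_nonneg _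
    have h10 : (D : ℝ) * m ≤ D * (√(((D : ℝ) + 1) / (Q.coeff D : ℝ)) * √(Y : ℝ) + 1) :=
      mul_le_mul_of_nonneg_left h5 (by positivity)
    have h11 : (0 : ℝ) ≤ D := by positivity
    have h12 : (0 : ℝ) ≤ D * √(((D : ℝ) + 1) / (Q.coeff D : ℝ)) := by positivity
    nlinarith [mul_nonneg h11 hsq]
  · -- degree at most one
    have hDe : D = 1 := le_antisymm hD2 hD1
    have hcard : S.card ≤ 1 := by
      by_contra hcon
      push Not at hcon
      obtain ⟨s, hsS, hsc, -⟩ := exists_spaced D 1 S (by omega) le_rfl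
      have h1 := hdd s hsS hsc
      have h2 := two_points hv (s := s) (by rw [hsc, hDe]) (v x)
      linarith
    have h1 : (S.card : ℝ) ≤ 1 := by exact_mod_cast hcard
    have h2 : (0 : ℝ) ≤ D * (√(((D : ℝ) + 1) / (Q.coeff D : ℝ)) + 1) := by positivity
    nlinarith

end Pool.Agent.EKF
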