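import Pool.Agent.EKF.Sum

/-!
# Prime powers dividing `p_n + 2 P(n)`, for a single polynomial
-/

set_option autoImplicit false

namespace Pool.Agent.EKF

open Finset Polynomial Filter
open Pool.Agent.PnPoly.NC (np np_strictMono np_le np_prime)

lemma eval_bound (Q : ℚ[X]) (d : ℕ) (hQd : Q.natDegree ≤ d) :
    ∃ A : ℕ, ∀ n N : ℕ, n < N → Q.eval (n : ℚ) ≤ A * (N : ℚ) ^ d := by
  obtain ⟨A, hA⟩ := exists_nat_ge (∑ i ∈ range (Q.natDegree + 1), |Q.coeff i|)
  refine ⟨A, fun n N hn => ?_⟩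
  have hN : (1 : ℚ) ≤ N := by exact_mod_cast (by omega : 1 ≤ N)
  have hnN : (n : ℚ) ≤ N := by exact_mod_cast hn.le
  rw [eval_eq_sum_range]
  calc ∑ i ∈ range (Q.natDegree + 1), Q.coeff i * (n : ℚ) ^ i
      ≤ ∑ i ∈ range (Q.natDegree + 1), |Q.coeff i| * (N : ℚ) ^ d := by
        refine sum_le_sum fun i hi => ?_
        rw [mem_range] at hi
        have h1 : (n : ℚ) ^ i ≤ (N : ℚ) ^ d :=
          (pow_le_pow_left₀ (by positivity) hnN i).trans (pow_le_pow_right₀ hN (by omega))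
        exact mul_le_mul (le_abs_self _) h1 (by positivity) (abs_nonneg _)
    _ = (∑ i ∈ range (Q.natDegree + 1), |Q.coeff i|) * (N : ℚ) ^ d := by rw [sum_mul]
    _ ≤ A * (N : ℚ) ^ d := by gcongr

lemma eval_nonneg (Q : ℚ[X]) (hlc : 0 < Q.leadingCoeff) :
    ∃ n1 : ℕ, ∀ n : ℕ, n1 ≤ n → 0 ≤ Q.eval (n : ℚ) := by
  rcases Nat.eq_zero_or_pos Q.natDegree with h0 | h0
  · refine ⟨0, fun n _ => ?_⟩
    have h1 : Q = C (Q.coeff 0) := eq_C_of_natDegree_eq_zero h0
    have h2 : Q.leadingCoeff = Q.coeff 0 := by rw [leadingCoeff, h0]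
    rw [h1, eval_C]
    rw [h2] at hlc
    exact hlc.le
  · have h1 : Tendsto (fun x : ℚ => Q.eval x) atTop atTop :=
      Q.tendsto_atTop_of_leadingCoeff_nonneg (natDegree_pos_iff_degree_pos.mp h0) hlc.le
    have h2 := (h1.comp (tendsto_natCast_atTop_atTop (R := ℚ))).eventually_ge_atTop 0
    obtain ⟨n1, hn1⟩ := eventually_atTop.mp h2
    exact ⟨n1, fun n hn => hn1 n hn⟩

/-- the small primes -/
noncomputable def smallQ (N : ℕ) : Finset ℕ := (range (Lam N)).filter (fun q => 2 ≤ q ∧ q ^ 8 < Lam N)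

lemma card_smallQ (N : ℕ) : (smallQ N).card ^ 8 ≤ Lam N := by
  classical
  rcases (smallQ N).eq_empty_or_nonempty with he | hne
  · rw [he]; simp
  · set b := (smallQ N).max' hne with hb
    have hbm : b ∈ smallQ N := (smallQ N).max'_mem hne
    have hb8 : b ^ 8 < Lam N := by
      unfold smallQ at hbm
      exact (mem_filter.mp hbm).2.2
    have hsub : smallQ N ⊆ Icc 1 b := by
      intro q hq
      rw [mem_Icc]
      refine ⟨?_, (smallQ N).le_max' q hq⟩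
      unfold smallQ at hq
      have := (mem_filter.mp hq).2.1
      omega
    have hcard : (smallQ N).card ≤ b := by
      have := card_le_card hsub
      rwa [Nat.card_Icc, Nat.add_sub_cancel] at this
    exact (Nat.pow_le_pow_left hcard 8).trans hb8.le

lemma small_err (δ : ℝ) (hδ : 0 < δ) : ∀ᶠ N : ℕ in atTop,
    ((smallQ N).card : ℝ) * (Real.log N) ^ (-(3 / 8) : ℝ) ≤ δ := by
  have hlog : Tendsto (fun N : ℕ => Real.log N) atTop atTop :=
    Real.tendsto_log_atTop.comp tendsto_natCast_atTop_atTop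
  have h1 : Tendsto (fun N : ℕ => 2 * (Real.log N) ^ (-(1 / 4) : ℝ)) atTop (nhds (2 * 0)) :=
    ((tendsto_rpow_neg_atTop (by norm_num : (0 : ℝ) < 1 / 4)).comp hlog).const_mul 2
  rw [mul_zero] at h1
  filter_upwards [h1.eventually_le_const hδ, hlog.eventually_ge_atTop 1] with N hN h1N
  refine le_trans ?_ hN
  set ℓ := Real.log N with hℓ
  have hℓ0 : 0 < ℓ := by linarith
  have hΛ : (Lam N : ℝ) ≤ 2 * ℓ := by
    have : (Lam N : ℝ) < Real.log N + 1 := Nat.ceil_lt_add_one (by linarith)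
    linarith
  have h2 : ((smallQ N).card : ℝ) ^ 8 ≤ 2 * ℓ := by
    have h3 : ((smallQ N).card : ℝ) ^ 8 ≤ Lam N := by exact_mod_cast card_smallQ N
    linarith
  have h4 : ((smallQ N).card : ℝ) ≤ 2 * ℓ ^ (1 / 8 : ℝ) := by
    have h5 : (2 * ℓ ^ (1 / 8 : ℝ)) ^ 8 = 256 * ℓ := by
      rw [mul_pow, ← Real.rpow_natCast (ℓ ^ (1 / 8 : ℝ)), ← Real.rpow_mul hℓ0.le]
      norm_num
    by_contra hcon
    push Not at hcon
    have h6 : (2 * ℓ ^ (1 / 8 : ℝ)) ^ 8 < ((smallQ N).card : ℝ) ^ 8 :=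
      pow_lt_pow_left₀ hcon (by positivity) (by norm_num)
    linarith
  calc ((smallQ N).card : ℝ) * ℓ ^ (-(3 / 8) : ℝ) ≤ 2 * ℓ ^ (1 / 8 : ℝ) * ℓ ^ (-(3 / 8) : ℝ) := by
        gcongr
    _ = 2 * (ℓ ^ (1 / 8 : ℝ) * ℓ ^ (-(3 / 8) : ℝ)) := by ring
    _ = 2 * ℓ ^ (-(1 / 4) : ℝ) := by
        rw [← Real.rpow_add hℓ0]
        norm_num

theorem core (d : ℕ) (C1 : ℝ) (hC1 : 0 < C1)
    (hnc : ∀ N q : ℕ, 1 ≤ q → ∀ Z : ℝ, 1 ≤ Z → Z ≤ q → Z ≤ Real.log N → ∀ P : ℚ[X],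
      P.natDegree ≤ d → (∀ m : ℤ, ∃ k : ℤ, P.eval (m : ℚ) = k) →
      (cnt vp P N q : ℝ) ≤ C1 * N * Z ^ (-(3 / 8) : ℝ))
    (k : ℕ) (hk1 : 12 * ((d + 1) ^ 2 + (d + 1) + 2) + 1 ≤ k) (hk2 : 48 ≤ k)
    (hk3 : 20 * (d + 2) ≤ k)
    (Q : ℚ[X]) (hQd : Q.natDegree ≤ d) (hQi : ∀ m : ℤ, ∃ k : ℤ, Q.eval (m : ℚ) = k)
    (hlc : 0 < Q.leadingCoeff) (Y : ℝ) (hY : 1 ≤ Y) :
    ∃ N0 : ℕ, ∀ N : ℕ, N0 ≤ N → ∀ B : Finset ℕ,
      (∀ n ∈ B, n < N ∧ ∃ q j : ℕ, q.Prime ∧ k ≤ j ∧ Y < (q : ℝ) ^ j ∧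
        ((q ^ j : ℕ) : ℤ) ∣ vp n + ⌊Q.eval (n : ℚ)⌋) →
      (B.card : ℝ) ≤ (C1 + 1) * N * Y ^ (-(1 / 3) : ℝ) := by
  classical
  obtain ⟨A, hA⟩ := eval_bound Q d hQd
  obtain ⟨n1, hn1⟩ := eval_nonneg Q hlc
  set y : ℝ := Y ^ (-(1 / 3) : ℝ) with hy
  have hY0 : 0 < Y := by linarith
  have hy0 : 0 < y := Real.rpow_pos_of_pos hY0 _
  have hlog : Tendsto (fun N : ℕ => Real.log N) atTop atTop :=
    Real.tendsto_log_atTop.comp tendsto_natCast_atTop_atTop
  have hev : ∀ᶠ N : ℕ in atTop, ∀ B : Finset ℕ,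
      (∀ n ∈ B, n < N ∧ ∃ q j : ℕ, q.Prime ∧ k ≤ j ∧ Y < (q : ℝ) ^ j ∧
        ((q ^ j : ℕ) : ℤ) ∣ vp n + ⌊Q.eval (n : ℚ)⌋) →
      (B.card : ℝ) ≤ (C1 + 1) * N * y := by
    filter_upwards [large_sum Q hQi hlc d k hQd hk1 (y / 3) (by positivity),
      small_err (y / (3 * C1)) (by positivity), hlog.eventually_ge_atTop 1, np_le, lam_sq,
      eventually_ge_atTop (max 400 (2 * A + 1)),
      tendsto_natCast_atTop_atTop.eventually_ge_atTop (3 * n1 / y)] with N hbig hsm hℓ1 hnp hΛ hNA hNn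
    intro B hB
    have hN400 : 400 ≤ N := le_trans (le_max_left _ _) hNA
    have hNA' : 2 * A + 1 ≤ N := le_trans (le_max_right _ _) hNA
    have hNr : (400 : ℝ) ≤ N := by exact_mod_cast hN400
    have hN0 : (0 : ℝ) < N := by linarith
    -- size of the values
    have hval : ∀ n < N, vp n + ⌊Q.eval (n : ℚ)⌋ ≤ ((N ^ (d + 2) : ℕ) : ℤ) := by
      intro n hn
      have h1 : (vp n : ℝ) ≤ (N : ℝ) ^ 2 / 2 := by
        have h2 : (vp n : ℝ) ≤ (np N : ℝ) := by
          have : vp n ≤ vp N := vp_mono.monotone hn.le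
          have h3 : (vp n : ℝ) ≤ (vp N : ℝ) := by exact_mod_cast this
          refine h3.trans (le_of_eq ?_)
          unfold vp
          push_cast
          rfl
        have h4 : Real.log N ≤ Lam N := Nat.le_ceil _
        have h5 : (Lam N : ℝ) * 20 ≤ N := by
          have h6 : ((Lam N : ℝ) * 20) ^ 2 ≤ (N : ℝ) ^ 2 := by nlinarith
          exact (sq_le_sq₀ (by positivity) (by positivity)).mp h6
        have h7 : Real.log N * 20 ≤ N := by linarith
        nlinarith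
      have h2 : ((⌊Q.eval (n : ℚ)⌋ : ℤ) : ℚ) ≤ A * (N : ℚ) ^ d := (Int.floor_le _).trans (hA n N hn)
      have h2r : ((⌊Q.eval (n : ℚ)⌋ : ℤ) : ℝ) ≤ A * (N : ℝ) ^ d := by exact_mod_cast h2
      have h3 : (A : ℝ) ≤ (N : ℝ) ^ 2 / 2 := by
        have : (2 * (A : ℝ) + 1) ≤ N := by exact_mod_cast hNA'
        nlinarith
      have h4 : (1 : ℝ) ≤ (N : ℝ) ^ d := one_le_pow₀ (by linarith)
      have h5 : ((vp n + ⌊Q.eval (n : ℚ)⌋ : ℤ) : ℝ) ≤ ((N ^ (d + 2) : ℕ) : ℝ) := by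
        push_cast
        rw [pow_add]
        have h6 : (A : ℝ) * (N : ℝ) ^ d ≤ (N : ℝ) ^ 2 / 2 * (N : ℝ) ^ d := by gcongr
        nlinarith
      exact_mod_cast h5
    -- exponents
    have hex : ∀ q : ℕ, ∃ j0 : ℕ, 2 ≤ q → (k ≤ j0 ∧ Y < (q : ℝ) ^ j0 ∧
        ∀ j, k ≤ j → Y < (q : ℝ) ^ j → j0 ≤ j) := by
      intro q
      by_cases hq : 2 ≤ q
      · have h1 : ∃ j : ℕ, k ≤ j ∧ Y < (q : ℝ) ^ j := by
          have hq1 : (1 : ℝ) < q := by exact_mod_cast (by omega : 1 < q)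
          obtain ⟨j, hj⟩ := pow_unbounded_of_one_lt Y hq1
          refine ⟨max k j, le_max_left _ _, lt_of_lt_of_le hj ?_⟩
          exact pow_le_pow_right₀ hq1.le (le_max_right _ _)
        refine ⟨Nat.find h1, fun _ => ⟨(Nat.find_spec h1).1, (Nat.find_spec h1).2, ?_⟩⟩
        intro j hj1 hj2
        exact Nat.find_min' h1 ⟨hj1, hj2⟩
      · exact ⟨0, fun h => absurd h hq⟩
    choose J hJ using hex
    have hcover : B ⊆ range n1 ∪ ((smallQ N).biUnion (fun q => (range N).filter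
        (fun n => ((q ^ J q : ℕ) : ℤ) ∣ vp n + ⌊Q.eval (n : ℚ)⌋)) ∪
        (bigQ N).biUnion (fun q => (range N).filter
        (fun n => ((q ^ k : ℕ) : ℤ) ∣ vp n + ⌊Q.eval (n : ℚ)⌋))) := by
      intro n hn
      obtain ⟨hnN, q, j, hq, hkj, hYq, hdvd⟩ := hB n hn
      rcases Nat.lt_or_ge n n1 with h1 | h1
      · exact mem_union_left _ (mem_range.mpr h1)
      refine mem_union_right _ ?_
      rcases Nat.lt_or_ge (q ^ 8) (Lam N) with h2 | h2
      · refine mem_union_left _ ?_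
        rw [mem_biUnion]
        refine ⟨q, ?_, ?_⟩
        · unfold smallQ
          rw [mem_filter, mem_range]
          exact ⟨lt_of_le_of_lt (Nat.le_self_pow (by norm_num) q) h2, hq.two_le, h2⟩
        · rw [mem_filter, mem_range]
          refine ⟨hnN, dvd_trans ?_ hdvd⟩
          have h3 := (hJ q hq.two_le).2.2 j hkj hYq
          exact_mod_cast pow_dvd_pow q h3
      · refine mem_union_right _ ?_
        rw [mem_biUnion]
        have hdk : ((q ^ k : ℕ) : ℤ) ∣ vp n + ⌊Q.eval (n : ℚ)⌋ :=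
          dvd_trans (by exact_mod_cast pow_dvd_pow q hkj) hdvd
        refine ⟨q, ?_, ?_⟩
        · have h3 : 0 ≤ ⌊Q.eval (n : ℚ)⌋ := Int.floor_nonneg.mpr (hn1 n h1)
          have h4 : 0 < vp n := by
            unfold vp
            exact_mod_cast (np_prime n).pos
          have h5 := Int.le_of_dvd (by omega) hdk
          have h6 := h5.trans (hval n hnN)
          have h7 : q ^ k ≤ N ^ (d + 2) := by exact_mod_cast h6
          have h8 : (q ^ 20) ^ (d + 2) ≤ N ^ (d + 2) := by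
            rw [← pow_mul]
            exact (Nat.pow_le_pow_right hq.pos hk3).trans h7
          have h9 : q ^ 20 ≤ N := (Nat.pow_le_pow_iff_left (by omega)).mp h8
          unfold bigQ
          rw [mem_filter, mem_range]
          refine ⟨?_, hq.one_le, h2, h9⟩
          have := Nat.le_self_pow (by norm_num : (20 : ℕ) ≠ 0) q
          omega
        · rw [mem_filter, mem_range]
          exact ⟨hnN, hdk⟩
    have hcard : B.card ≤ n1 + (∑ q ∈ smallQ N, cnt vp Q N (q ^ J q) +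
        ∑ q ∈ bigQ N, cnt vp Q N (q ^ k)) := by
      refine (card_le_card hcover).trans ((card_union_le _ _).trans ?_)
      rw [card_range]
      refine Nat.add_le_add_left ((card_union_le _ _).trans (Nat.add_le_add ?_ ?_)) _
      · exact card_biUnion_le
      · exact card_biUnion_le
    have hcardR : (B.card : ℝ) ≤ n1 + (∑ q ∈ smallQ N, (cnt vp Q N (q ^ J q) : ℝ) +
        ∑ q ∈ bigQ N, (cnt vp Q N (q ^ k) : ℝ)) := by exact_mod_cast hcard
    -- small primes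
    have hsmall : ∑ q ∈ smallQ N, (cnt vp Q N (q ^ J q) : ℝ) ≤
        C1 * N * y + C1 * N * (((smallQ N).card : ℝ) * (Real.log N) ^ (-(3 / 8) : ℝ)) := by
      have h1 : ∀ q ∈ smallQ N, (cnt vp Q N (q ^ J q) : ℝ) ≤
          C1 * N * y * ((q : ℝ) ^ 2)⁻¹ + C1 * N * (Real.log N) ^ (-(3 / 8) : ℝ) := by
        intro q hq
        unfold smallQ at hq
        rw [mem_filter, mem_range] at hq
        obtain ⟨-, hq2, -⟩ := hq
        obtain ⟨hk, hYq, -⟩ := hJ q hq2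
        have hq1 : (1 : ℝ) ≤ q := by exact_mod_cast (by omega : 1 ≤ q)
        have hm1 : (1 : ℝ) ≤ (q : ℝ) ^ J q := one_le_pow₀ hq1
        have hm0 : (0 : ℝ) < (q : ℝ) ^ J q := by linarith
        set Z : ℝ := min ((q : ℝ) ^ J q) (Real.log N) with hZ
        have h2 := hnc N (q ^ J q) (Nat.pos_of_ne_zero (pow_ne_zero _ (by omega))) Z
          (le_min hm1 hℓ1) (by push_cast; exact min_le_left _ _) (min_le_right _ _) Q hQd hQi
        refine h2.trans ?_
        have h3 : Z ^ (-(3 / 8) : ℝ) ≤ ((q : ℝ) ^ J q) ^ (-(3 / 8) : ℝ) +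
            (Real.log N) ^ (-(3 / 8) : ℝ) := by
          rcases min_choice ((q : ℝ) ^ J q) (Real.log N) with h | h
          · rw [hZ, h]
            have : 0 ≤ (Real.log N) ^ (-(3 / 8) : ℝ) := Real.rpow_nonneg (by linarith) _
            linarith
          · rw [hZ, h]
            have : 0 ≤ ((q : ℝ) ^ J q) ^ (-(3 / 8) : ℝ) := Real.rpow_nonneg hm0.le _
            linarith
        have h4 : ((q : ℝ) ^ J q) ^ (-(3 / 8) : ℝ) ≤ y * ((q : ℝ) ^ 2)⁻¹ := by
          have h5 : ((q : ℝ) ^ J q) ^ (-(3 / 8) : ℝ) =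
              ((q : ℝ) ^ J q) ^ (-(1 / 3) : ℝ) * ((q : ℝ) ^ J q) ^ (-(1 / 24) : ℝ) := by
            rw [← Real.rpow_add hm0]
            norm_num
          rw [h5]
          refine mul_le_mul ?_ ?_ (Real.rpow_nonneg hm0.le _) hy0.le
          · exact Real.rpow_le_rpow_of_nonpos hY0 hYq.le (by norm_num)
          · have h6 : ((q : ℝ) ^ 48) ≤ (q : ℝ) ^ J q := pow_le_pow_right₀ hq1 (by omega)
            have h7 : ((q : ℝ) ^ J q) ^ (-(1 / 24) : ℝ) ≤ ((q : ℝ) ^ 48) ^ (-(1 / 24) : ℝ) :=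
              Real.rpow_le_rpow_of_nonpos (by positivity) h6 (by norm_num)
            refine h7.trans (le_of_eq ?_)
            rw [← Real.rpow_natCast (q : ℝ) 48, ← Real.rpow_mul (by linarith), ← Real.rpow_natCast (q : ℝ) 2,
              ← Real.rpow_neg (by linarith)]
            norm_num
        have h8 : 0 ≤ C1 * N := by positivity
        calc C1 * N * Z ^ (-(3 / 8) : ℝ)
            ≤ C1 * N * (y * ((q : ℝ) ^ 2)⁻¹ + (Real.log N) ^ (-(3 / 8) : ℝ)) := by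
              refine mul_le_mul_of_nonneg_left (h3.trans ?_) h8
              linarith
          _ = _ := by ring
      refine (sum_le_sum h1).trans ?_
      rw [sum_add_distrib, ← mul_sum, sum_const, nsmul_eq_mul]
      have h9 : ∑ q ∈ smallQ N, ((q : ℝ) ^ 2)⁻¹ ≤ 1 := by
        refine le_trans (sum_le_sum_of_subset_of_nonneg (t := Ioo 1 (Lam N)) ?_ ?_)
          ((sum_Ioo_inv_sq_le 1 (Lam N)).trans (by norm_num))
        · intro q hq
          unfold smallQ at hq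
          rw [mem_filter, mem_range] at hq
          rw [mem_Ioo]
          omega
        · intro q _ _
          positivity
      have h10 : 0 ≤ C1 * N * y := by positivity
      have h11 : C1 * N * y * ∑ q ∈ smallQ N, ((q : ℝ) ^ 2)⁻¹ ≤ C1 * N * y := by nlinarith
      have h12 : ((smallQ N).card : ℝ) * (C1 * N * (Real.log N) ^ (-(3 / 8) : ℝ)) =
          C1 * N * (((smallQ N).card : ℝ) * (Real.log N) ^ (-(3 / 8) : ℝ)) := by ring
      rw [h12]
      linarith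
    have h13 : C1 * N * (((smallQ N).card : ℝ) * (Real.log N) ^ (-(3 / 8) : ℝ)) ≤ y / 3 * N := by
      have h14 : C1 * N * (((smallQ N).card : ℝ) * (Real.log N) ^ (-(3 / 8) : ℝ)) ≤
          C1 * N * (y / (3 * C1)) := mul_le_mul_of_nonneg_left hsm (by positivity)
      refine h14.trans (le_of_eq ?_)
      field_simp
    have h15 : (n1 : ℝ) ≤ y / 3 * N := by
      rw [div_le_iff₀ hy0] at hNn
      linarith
    calc (B.card : ℝ) ≤ n1 + (∑ q ∈ smallQ N, (cnt vp Q N (q ^ J q) : ℝ) +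
          ∑ q ∈ bigQ N, (cnt vp Q N (q ^ k) : ℝ)) := hcardR
      _ ≤ y / 3 * N + ((C1 * N * y + y / 3 * N) + y / 3 * N) := by linarith
      _ = (C1 + 1) * N * y := by ring
  exact eventually_atTop.mp hev

end Pool.Agent.EKF
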