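import Pool.Agent.EKF.Core

/-!
# Linear polynomials: fourth powers
-/

set_option autoImplicit false

namespace Pool.Agent.EKF

open Finset Polynomial Filter
open Pool.Agent.PnPoly.NC (np np_strictMono np_le np_prime)

lemma eval_lin (Q : ℚ[X]) (hQd : Q.natDegree ≤ 1) (x : ℚ) : Q.eval x = Q.coeff 1 * x + Q.coeff 0 := by
  conv_lhs => rw [eq_X_add_C_of_natDegree_le_one hQd]
  simp

lemma coeff_one_nonneg (Q : ℚ[X]) (hQd : Q.natDegree ≤ 1) (hlc : 0 < Q.leadingCoeff) :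
    0 ≤ Q.coeff 1 := by
  rcases Nat.lt_or_ge Q.natDegree 1 with h | h
  · rw [coeff_eq_zero_of_natDegree_lt h]
  · have : Q.natDegree = 1 := le_antisymm hQd h
    rw [leadingCoeff, this] at hlc
    exact hlc.le

/-- the small primes -/
noncomputable def smallL (N : ℕ) : Finset ℕ :=
  (range (Lam N ^ 2)).filter (fun q => 2 ≤ q ∧ q ^ 5 < Lam N ^ 2)

lemma card_smallL (N : ℕ) : (smallL N).card ^ 5 ≤ Lam N ^ 2 := by
  classical
  rcases (smallL N).eq_empty_or_nonempty with he | hne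
  · rw [he]; simp
  · set b := (smallL N).max' hne with hb
    have hbm : b ∈ smallL N := (smallL N).max'_mem hne
    have hb8 : b ^ 5 < Lam N ^ 2 := by
      unfold smallL at hbm
      exact (mem_filter.mp hbm).2.2
    have hsub : smallL N ⊆ Icc 1 b := by
      intro q hq
      rw [mem_Icc]
      refine ⟨?_, (smallL N).le_max' q hq⟩
      unfold smallL at hq
      have := (mem_filter.mp hq).2.1
      omega
    have hcard : (smallL N).card ≤ b := by
      have := card_le_card hsub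
      rwa [Nat.card_Icc, Nat.add_sub_cancel] at this
    exact (Nat.pow_le_pow_left hcard 5).trans hb8.le

lemma small_errL (δ : ℝ) (hδ : 0 < δ) : ∀ᶠ N : ℕ in atTop,
    ((smallL N).card : ℝ) * (Real.log N) ^ (-(19 / 40) : ℝ) ≤ δ := by
  have hlog : Tendsto (fun N : ℕ => Real.log N) atTop atTop :=
    Real.tendsto_log_atTop.comp tendsto_natCast_atTop_atTop
  have h1 : Tendsto (fun N : ℕ => 2 * (Real.log N) ^ (-(3 / 40) : ℝ)) atTop (nhds (2 * 0)) :=
    ((tendsto_rpow_neg_atTop (by norm_num : (0 : ℝ) < 3 / 40)).comp hlog).const_mul 2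
  rw [mul_zero] at h1
  filter_upwards [h1.eventually_le_const hδ, hlog.eventually_ge_atTop 1] with N hN h1N
  refine le_trans ?_ hN
  set ℓ := Real.log N with hℓ
  have hℓ0 : 0 < ℓ := by linarith
  have hΛ : (Lam N : ℝ) ≤ 2 * ℓ := by
    have : (Lam N : ℝ) < Real.log N + 1 := Nat.ceil_lt_add_one (by linarith)
    linarith
  have h2 : ((smallL N).card : ℝ) ^ 5 ≤ 4 * ℓ ^ 2 := by
    have h3 : ((smallL N).card : ℝ) ^ 5 ≤ (Lam N : ℝ) ^ 2 := by exact_mod_cast card_smallL N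
    have h4 : (Lam N : ℝ) ^ 2 ≤ (2 * ℓ) ^ 2 := pow_le_pow_left₀ (by positivity) hΛ 2
    nlinarith
  have h4 : ((smallL N).card : ℝ) ≤ 2 * ℓ ^ (2 / 5 : ℝ) := by
    have h5 : (2 * ℓ ^ (2 / 5 : ℝ)) ^ 5 = 32 * ℓ ^ 2 := by
      rw [mul_pow, ← Real.rpow_natCast (ℓ ^ (2 / 5 : ℝ)), ← Real.rpow_mul hℓ0.le]
      norm_num
    by_contra hcon
    push Not at hcon
    have h6 : (2 * ℓ ^ (2 / 5 : ℝ)) ^ 5 < ((smallL N).card : ℝ) ^ 5 :=
      pow_lt_pow_left₀ hcon (by positivity) (by norm_num)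
    nlinarith [sq_nonneg ℓ]
  calc ((smallL N).card : ℝ) * ℓ ^ (-(19 / 40) : ℝ) ≤ 2 * ℓ ^ (2 / 5 : ℝ) * ℓ ^ (-(19 / 40) : ℝ) := by
        gcongr
    _ = 2 * (ℓ ^ (2 / 5 : ℝ) * ℓ ^ (-(19 / 40) : ℝ)) := by ring
    _ = 2 * ℓ ^ (-(3 / 40) : ℝ) := by
        rw [← Real.rpow_add hℓ0]
        norm_num

/-- a strictly increasing positive integer sequence has few multiples of `M` below `V` -/
lemma mult_count (f : ℕ → ℤ) (n1 N : ℕ) (hf : ∀ a b, a < b → f a < f b) (hpos : ∀ n, n1 ≤ n → 0 < f n)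
    (M : ℕ) (hM : 1 ≤ M) (V : ℝ) (hV0 : 0 ≤ V) (hV : ∀ n < N, (f n : ℝ) ≤ V) :
    ((((range N).filter (fun n => n1 ≤ n ∧ (M : ℤ) ∣ f n)).card : ℕ) : ℝ) ≤ V / M := by
  classical
  have hMr : (0 : ℝ) < M := by exact_mod_cast hM
  have h1 : ((range N).filter (fun n => n1 ≤ n ∧ (M : ℤ) ∣ f n)).card ≤ ⌊V / M⌋₊ := by
    have h2 : ⌊V / M⌋₊ = (Icc 1 ⌊V / M⌋₊).card := by rw [Nat.card_Icc, Nat.add_sub_cancel]
    rw [h2]
    refine card_le_card_of_injOn (fun n => (f n / M).toNat) ?_ ?_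
    · intro n hn
      rw [mem_coe, mem_filter, mem_range] at hn
      obtain ⟨hnN, hn1, t, ht⟩ := hn
      have hp := hpos n hn1
      have hMz : (0 : ℤ) < M := by exact_mod_cast hM
      have ht0 : 0 < t := by
        rw [ht] at hp
        exact (mul_pos_iff_of_pos_left hMz).mp hp
      have h3 : f n / M = t := by rw [ht]; exact Int.mul_ediv_cancel_left t hMz.ne'
      rw [mem_coe, mem_Icc]
      simp only [h3]
      refine ⟨by omega, ?_⟩
      rw [Nat.le_floor_iff (by positivity), le_div_iff₀ hMr]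
      have h4 : ((t.toNat : ℕ) : ℝ) = (t : ℝ) := by
        have : ((t.toNat : ℕ) : ℤ) = t := Int.toNat_of_nonneg ht0.le
        exact_mod_cast congrArg (fun z : ℤ => (z : ℝ)) this
      rw [h4]
      have h5 := hV n hnN
      rw [ht] at h5
      push_cast at h5
      linarith
    · intro a ha b hb hab
      rw [mem_coe, mem_filter, mem_range] at ha hb
      obtain ⟨-, ha1, ta, hta⟩ := ha
      obtain ⟨-, hb1, tb, htb⟩ := hb
      have hMz : (0 : ℤ) < M := by exact_mod_cast hM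
      have hpa := hpos a ha1
      have hpb := hpos b hb1
      have hta0 : 0 < ta := by
        rw [hta] at hpa
        exact (mul_pos_iff_of_pos_left hMz).mp hpa
      have htb0 : 0 < tb := by
        rw [htb] at hpb
        exact (mul_pos_iff_of_pos_left hMz).mp hpb
      simp only at hab
      rw [hta, htb, Int.mul_ediv_cancel_left _ hMz.ne', Int.mul_ediv_cancel_left _ hMz.ne'] at hab
      have h6 : ta = tb := by omega
      have h7 : f a = f b := by rw [hta, htb, h6]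
      rcases lt_trichotomy a b with h | h | h
      · have := hf a b h; omega
      · exact h
      · have := hf b a h; omega
  calc ((((range N).filter (fun n => n1 ≤ n ∧ (M : ℤ) ∣ f n)).card : ℕ) : ℝ) ≤ (⌊V / M⌋₊ : ℝ) := by
        exact_mod_cast h1
    _ ≤ V / M := Nat.floor_le (by positivity)

theorem core_lin (C1 : ℝ) (hC1 : 0 < C1)
    (hnc : ∀ N q : ℕ, 1 ≤ q → ∀ Z : ℝ, 1 ≤ Z → Z ≤ q → Z ≤ Real.log N → ∀ P : ℚ[X],
      P.natDegree ≤ 1 → (∀ m : ℤ, ∃ k : ℤ, P.eval (m : ℚ) = k) →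
      (cnt vp P N q : ℝ) ≤ C1 * N * Z ^ (-(19 / 40) : ℝ)) :
    ∃ C : ℝ, ∀ (Q : ℚ[X]), Q.natDegree ≤ 1 → (∀ m : ℤ, ∃ k : ℤ, Q.eval (m : ℚ) = k) →
    0 < Q.leadingCoeff → ∀ Y : ℝ, 1 ≤ Y →
    ∃ N0 : ℕ, ∀ N : ℕ, N0 ≤ N → ∀ B : Finset ℕ,
      (∀ n ∈ B, n < N ∧ ∃ q j : ℕ, q.Prime ∧ 4 ≤ j ∧ Y < (q : ℝ) ^ j ∧
        ((q ^ j : ℕ) : ℤ) ∣ vp n + ⌊Q.eval (n : ℚ)⌋) →
      (B.card : ℝ) ≤ C * N * Y ^ (-(1 / 5) : ℝ) := by
  classical
  have hsum1 : Summable (fun n : ℕ => ((n : ℝ) ^ (11 / 10 : ℝ))⁻¹) :=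
    Real.summable_nat_rpow_inv.mpr (by norm_num)
  have hsum2 : Summable (fun n : ℕ => ((n : ℝ) ^ (3 / 2 : ℝ))⁻¹) :=
    Real.summable_nat_rpow_inv.mpr (by norm_num)
  set K : ℝ := ∑' n : ℕ, ((n : ℝ) ^ (11 / 10 : ℝ))⁻¹ with hK
  have hK0 : 0 ≤ K := tsum_nonneg fun n => by positivity
  refine ⟨C1 * K + 1, ?_⟩
  intro Q hQd hQi hlc Y hY
  obtain ⟨A, hA⟩ := eval_bound Q 1 hQd
  obtain ⟨n1, hn1⟩ := eval_nonneg Q hlc
  set y : ℝ := Y ^ (-(1 / 5) : ℝ) with hy
  have hY0 : 0 < Y := by linarith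
  have hy0 : 0 < y := Real.rpow_pos_of_pos hY0 _
  have hlog : Tendsto (fun N : ℕ => Real.log N) atTop atTop :=
    Real.tendsto_log_atTop.comp tendsto_natCast_atTop_atTop
  -- the tail
  obtain ⟨s0, hs0⟩ := summable_iff_vanishing_norm.mp hsum2 (y / (3 * (9 + A))) (by positivity)
  obtain ⟨w, hw⟩ : ∃ w : ℕ, ∀ x ∈ s0, x < w := ⟨s0.sup id + 1, fun x hx =>
    Nat.lt_succ_of_le (le_sup (f := id) hx)⟩
  -- monotonicity
  have hfl : ∀ n : ℕ, ((⌊Q.eval (n : ℚ)⌋ : ℤ) : ℚ) = Q.eval (n : ℚ) := by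
    intro n
    obtain ⟨k, hk⟩ := hQi n
    have h1 : Q.eval (n : ℚ) = k := by exact_mod_cast hk
    rw [h1, Int.floor_intCast]
  have hmono : ∀ a b : ℕ, a < b → vp a + ⌊Q.eval (a : ℚ)⌋ < vp b + ⌊Q.eval (b : ℚ)⌋ := by
    intro a b hab
    have h1 : vp a < vp b := vp_mono hab
    have h2 : ⌊Q.eval (a : ℚ)⌋ ≤ ⌊Q.eval (b : ℚ)⌋ := by
      apply Int.floor_le_floor
      rw [eval_lin Q hQd, eval_lin Q hQd]
      have h3 := coeff_one_nonneg Q hQd hlc
      have h4 : (a : ℚ) ≤ b := by exact_mod_cast hab.le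
      have := mul_le_mul_of_nonneg_left h4 h3
      linarith
    omega
  have hpos : ∀ n : ℕ, n1 ≤ n → 0 < vp n + ⌊Q.eval (n : ℚ)⌋ := by
    intro n hn
    have h3 : 0 ≤ ⌊Q.eval (n : ℚ)⌋ := Int.floor_nonneg.mpr (hn1 n hn)
    have h4 : 0 < vp n := by
      unfold vp
      exact_mod_cast (np_prime n).pos
    omega
  have hLamE : ∀ᶠ N : ℕ in atTop, (w : ℝ) ^ 5 < (Lam N : ℝ) ^ 2 := by
    have h1 := lam_tendsto.eventually_gt_atTop (max ((w : ℝ) ^ 5) 1)
    filter_upwards [h1] with N hN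
    have h2 : (w : ℝ) ^ 5 < Lam N := lt_of_le_of_lt (le_max_left _ _) hN
    have h3 : (1 : ℝ) < Lam N := lt_of_le_of_lt (le_max_right _ _) hN
    nlinarith
  have hev : ∀ᶠ N : ℕ in atTop, ∀ B : Finset ℕ,
      (∀ n ∈ B, n < N ∧ ∃ q j : ℕ, q.Prime ∧ 4 ≤ j ∧ Y < (q : ℝ) ^ j ∧
        ((q ^ j : ℕ) : ℤ) ∣ vp n + ⌊Q.eval (n : ℚ)⌋) →
      (B.card : ℝ) ≤ (C1 * K + 1) * N * y := by
    filter_upwards [small_errL (y / (3 * C1)) (by positivity), hlog.eventually_ge_atTop 1, np_le, hLamE,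
      eventually_ge_atTop 1,
      tendsto_natCast_atTop_atTop.eventually_ge_atTop (3 * n1 / y)] with N hsm hℓ1 hnp hLw hN1 hNn
    intro B hB
    have hNr : (1 : ℝ) ≤ N := by exact_mod_cast hN1
    have hN0 : (0 : ℝ) < N := by linarith
    have hΛ1 : (1 : ℝ) ≤ Lam N := hℓ1.trans (Nat.le_ceil _)
    set V : ℝ := (9 + A) * (N * (Lam N : ℝ)) with hV
    have hV0 : 0 ≤ V := by positivity
    have hval : ∀ n < N, ((vp n + ⌊Q.eval (n : ℚ)⌋ : ℤ) : ℝ) ≤ V := by
      intro n hn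
      have h1 : (vp n : ℝ) ≤ 9 * (N * (Lam N : ℝ)) := by
        have h2 : (vp n : ℝ) ≤ (np N : ℝ) := by
          have : vp n ≤ vp N := vp_mono.monotone hn.le
          have h3 : (vp n : ℝ) ≤ (vp N : ℝ) := by exact_mod_cast this
          refine h3.trans (le_of_eq ?_)
          unfold vp
          push_cast
          rfl
        have h4 : Real.log N ≤ Lam N := Nat.le_ceil _
        have h5 : 9 * ((N : ℝ) * Real.log N) ≤ 9 * (N * (Lam N : ℝ)) := by gcongr
        linarith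
      have h2 : ((⌊Q.eval (n : ℚ)⌋ : ℤ) : ℚ) ≤ A * (N : ℚ) ^ 1 := (Int.floor_le _).trans (hA n N hn)
      have h2r : ((⌊Q.eval (n : ℚ)⌋ : ℤ) : ℝ) ≤ A * (N : ℝ) ^ 1 := by exact_mod_cast h2
      rw [pow_one] at h2r
      have h3 : (A : ℝ) * N ≤ A * (N * (Lam N : ℝ)) := by
        have : (N : ℝ) ≤ N * (Lam N : ℝ) := by nlinarith
        gcongr
      push_cast
      rw [hV]
      nlinarith
    -- exponents
    have hex : ∀ q : ℕ, ∃ j0 : ℕ, 2 ≤ q → (4 ≤ j0 ∧ Y < (q : ℝ) ^ j0 ∧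
        ∀ j, 4 ≤ j → Y < (q : ℝ) ^ j → j0 ≤ j) := by
      intro q
      by_cases hq : 2 ≤ q
      · have h1 : ∃ j : ℕ, 4 ≤ j ∧ Y < (q : ℝ) ^ j := by
          have hq1 : (1 : ℝ) < q := by exact_mod_cast (by omega : 1 < q)
          obtain ⟨j, hj⟩ := pow_unbounded_of_one_lt Y hq1
          refine ⟨max 4 j, le_max_left _ _, lt_of_lt_of_le hj ?_⟩
          exact pow_le_pow_right₀ hq1.le (le_max_right _ _)
        refine ⟨Nat.find h1, fun _ => ⟨(Nat.find_spec h1).1, (Nat.find_spec h1).2, ?_⟩⟩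
        intro j hj1 hj2
        exact Nat.find_min' h1 ⟨hj1, hj2⟩
      · exact ⟨0, fun h => absurd h hq⟩
    choose J hJ using hex
    set big : Finset ℕ := (range (⌊V⌋₊ + 1)).filter (fun q => 1 ≤ q ∧ Lam N ^ 2 ≤ q ^ 5) with hbig
    have hcover : B ⊆ range n1 ∪ ((smallL N).biUnion (fun q => (range N).filter
        (fun n => ((q ^ J q : ℕ) : ℤ) ∣ vp n + ⌊Q.eval (n : ℚ)⌋)) ∪
        big.biUnion (fun q => (range N).filter
        (fun n => n1 ≤ n ∧ ((q ^ 4 : ℕ) : ℤ) ∣ vp n + ⌊Q.eval (n : ℚ)⌋))) := by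
      intro n hn
      obtain ⟨hnN, q, j, hq, hkj, hYq, hdvd⟩ := hB n hn
      rcases Nat.lt_or_ge n n1 with h1 | h1
      · exact mem_union_left _ (mem_range.mpr h1)
      refine mem_union_right _ ?_
      rcases Nat.lt_or_ge (q ^ 5) (Lam N ^ 2) with h2 | h2
      · refine mem_union_left _ ?_
        rw [mem_biUnion]
        refine ⟨q, ?_, ?_⟩
        · unfold smallL
          rw [mem_filter, mem_range]
          exact ⟨lt_of_le_of_lt (Nat.le_self_pow (by norm_num) q) h2, hq.two_le, h2⟩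
        · rw [mem_filter, mem_range]
          refine ⟨hnN, dvd_trans ?_ hdvd⟩
          have h3 := (hJ q hq.two_le).2.2 j hkj hYq
          exact_mod_cast pow_dvd_pow q h3
      · refine mem_union_right _ ?_
        rw [mem_biUnion]
        have hdk : ((q ^ 4 : ℕ) : ℤ) ∣ vp n + ⌊Q.eval (n : ℚ)⌋ :=
          dvd_trans (by exact_mod_cast pow_dvd_pow q hkj) hdvd
        refine ⟨q, ?_, ?_⟩
        · have h5 := Int.le_of_dvd (hpos n h1) hdk
          have h6 : ((q ^ 4 : ℕ) : ℝ) ≤ V := by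
            have h7 : (((q ^ 4 : ℕ) : ℤ) : ℝ) ≤ ((vp n + ⌊Q.eval (n : ℚ)⌋ : ℤ) : ℝ) := by exact_mod_cast h5
            refine le_trans (le_of_eq ?_) (h7.trans (hval n hnN))
            push_cast
            rfl
          rw [hbig, mem_filter, mem_range]
          refine ⟨?_, hq.one_le, h2⟩
          have h8 : q ^ 4 ≤ ⌊V⌋₊ := Nat.le_floor h6
          have h9 := Nat.le_self_pow (by norm_num : (4 : ℕ) ≠ 0) q
          omega
        · rw [mem_filter, mem_range]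
          exact ⟨hnN, h1, hdk⟩
    have hcard : B.card ≤ n1 + (∑ q ∈ smallL N, cnt vp Q N (q ^ J q) +
        ∑ q ∈ big, ((range N).filter
        (fun n => n1 ≤ n ∧ ((q ^ 4 : ℕ) : ℤ) ∣ vp n + ⌊Q.eval (n : ℚ)⌋)).card) := by
      refine (card_le_card hcover).trans ((card_union_le _ _).trans ?_)
      rw [card_range]
      refine Nat.add_le_add_left ((card_union_le _ _).trans (Nat.add_le_add ?_ ?_)) _
      · exact card_biUnion_le
      · exact card_biUnion_le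
    have hcardR : (B.card : ℝ) ≤ n1 + (∑ q ∈ smallL N, (cnt vp Q N (q ^ J q) : ℝ) +
        ∑ q ∈ big, ((((range N).filter
        (fun n => n1 ≤ n ∧ ((q ^ 4 : ℕ) : ℤ) ∣ vp n + ⌊Q.eval (n : ℚ)⌋)).card : ℕ) : ℝ)) := by
      exact_mod_cast hcard
    -- large primes
    have hlarge : ∑ q ∈ big, ((((range N).filter
        (fun n => n1 ≤ n ∧ ((q ^ 4 : ℕ) : ℤ) ∣ vp n + ⌊Q.eval (n : ℚ)⌋)).card : ℕ) : ℝ) ≤ y / 3 * N := by
      have h1 : ∀ q ∈ big, ((((range N).filter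
          (fun n => n1 ≤ n ∧ ((q ^ 4 : ℕ) : ℤ) ∣ vp n + ⌊Q.eval (n : ℚ)⌋)).card : ℕ) : ℝ) ≤
          (9 + A) * N * ((q : ℝ) ^ (3 / 2 : ℝ))⁻¹ := by
        intro q hq
        rw [hbig, mem_filter, mem_range] at hq
        obtain ⟨-, hq1, hq5⟩ := hq
        have hqr : (1 : ℝ) ≤ q := by exact_mod_cast hq1
        have hq0 : (0 : ℝ) < q := by linarith
        refine (mult_count (fun n => vp n + ⌊Q.eval (n : ℚ)⌋) n1 N hmono hpos (q ^ 4)
          (Nat.pos_of_ne_zero (pow_ne_zero _ (by omega))) V hV0 hval).trans ?_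
        have h2 : (Lam N : ℝ) ≤ (q : ℝ) ^ (5 / 2 : ℝ) := by
          have h3 : (Lam N : ℝ) ^ 2 ≤ ((q : ℝ) ^ (5 / 2 : ℝ)) ^ 2 := by
            rw [← Real.rpow_natCast ((q : ℝ) ^ (5 / 2 : ℝ)), ← Real.rpow_mul hq0.le]
            norm_num
            exact_mod_cast hq5
          exact (sq_le_sq₀ (by positivity) (by positivity)).mp h3
        have h4 : (q : ℝ) ^ (5 / 2 : ℝ) / (q : ℝ) ^ 4 = ((q : ℝ) ^ (3 / 2 : ℝ))⁻¹ := by
          rw [← Real.rpow_natCast (q : ℝ) 4, ← Real.rpow_sub hq0, ← Real.rpow_neg hq0.le]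
          norm_num
        rw [hV]
        push_cast
        calc (9 + (A : ℝ)) * (N * (Lam N : ℝ)) / (q : ℝ) ^ 4
            ≤ (9 + (A : ℝ)) * (N * (q : ℝ) ^ (5 / 2 : ℝ)) / (q : ℝ) ^ 4 := by gcongr
          _ = (9 + (A : ℝ)) * N * ((q : ℝ) ^ (5 / 2 : ℝ) / (q : ℝ) ^ 4) := by ring
          _ = _ := by rw [h4]
      refine (sum_le_sum h1).trans ?_
      rw [← mul_sum]
      have h2 : ∑ q ∈ big, ((q : ℝ) ^ (3 / 2 : ℝ))⁻¹ ≤ y / (3 * (9 + A)) := by
        have h3 := hs0 big (by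
          rw [disjoint_left]
          intro q hq hqs
          have h4 := hw q hqs
          rw [hbig, mem_filter] at hq
          have h5 : w ^ 5 < q ^ 5 := by
            have h6 : w ^ 5 < Lam N ^ 2 := by exact_mod_cast hLw
            exact lt_of_lt_of_le h6 hq.2.2
          have h7 := lt_of_pow_lt_pow_left₀ 5 (Nat.zero_le _) h5
          omega)
        exact (le_trans (le_abs_self _) h3.le)
      have h5 : (0 : ℝ) ≤ (9 + A) * N := by positivity
      refine (mul_le_mul_of_nonneg_left h2 h5).trans (le_of_eq ?_)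
      have : (9 + (A : ℝ)) ≠ 0 := by positivity
      field_simp
    -- small primes
    have hsmall : ∑ q ∈ smallL N, (cnt vp Q N (q ^ J q) : ℝ) ≤
        C1 * N * y * K + C1 * N * (((smallL N).card : ℝ) * (Real.log N) ^ (-(19 / 40) : ℝ)) := by
      have h1 : ∀ q ∈ smallL N, (cnt vp Q N (q ^ J q) : ℝ) ≤
          C1 * N * y * ((q : ℝ) ^ (11 / 10 : ℝ))⁻¹ + C1 * N * (Real.log N) ^ (-(19 / 40) : ℝ) := by
        intro q hq
        unfold smallL at hq
        rw [mem_filter, mem_range] at hq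
        obtain ⟨-, hq2, -⟩ := hq
        obtain ⟨hk, hYq, -⟩ := hJ q hq2
        have hq1 : (1 : ℝ) ≤ q := by exact_mod_cast (by omega : 1 ≤ q)
        have hm1 : (1 : ℝ) ≤ (q : ℝ) ^ J q := one_le_pow₀ hq1
        have hm0 : (0 : ℝ) < (q : ℝ) ^ J q := by linarith
        set Z : ℝ := min ((q : ℝ) ^ J q) (Real.log N) with hZ
        have h2 := hnc N (q ^ J q) (Nat.pos_of_ne_zero (pow_ne_zero _ (by omega))) Z
          (le_min hm1 hℓ1) (by push_cast; exact min_le_left _ _) (min_le_right _ _) Q hQd hQi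
        refine h2.trans ?_
        have h3 : Z ^ (-(19 / 40) : ℝ) ≤ ((q : ℝ) ^ J q) ^ (-(19 / 40) : ℝ) +
            (Real.log N) ^ (-(19 / 40) : ℝ) := by
          rcases min_choice ((q : ℝ) ^ J q) (Real.log N) with h | h
          · rw [hZ, h]
            have : 0 ≤ (Real.log N) ^ (-(19 / 40) : ℝ) := Real.rpow_nonneg (by linarith) _
            linarith
          · rw [hZ, h]
            have : 0 ≤ ((q : ℝ) ^ J q) ^ (-(19 / 40) : ℝ) := Real.rpow_nonneg hm0.le _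
            linarith
        have h4 : ((q : ℝ) ^ J q) ^ (-(19 / 40) : ℝ) ≤ y * ((q : ℝ) ^ (11 / 10 : ℝ))⁻¹ := by
          have h5 : ((q : ℝ) ^ J q) ^ (-(19 / 40) : ℝ) =
              ((q : ℝ) ^ J q) ^ (-(1 / 5) : ℝ) * ((q : ℝ) ^ J q) ^ (-(11 / 40) : ℝ) := by
            rw [← Real.rpow_add hm0]
            norm_num
          rw [h5]
          refine mul_le_mul ?_ ?_ (Real.rpow_nonneg hm0.le _) hy0.le
          · exact Real.rpow_le_rpow_of_nonpos hY0 hYq.le (by norm_num)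
          · have h6 : ((q : ℝ) ^ 4) ≤ (q : ℝ) ^ J q := pow_le_pow_right₀ hq1 hk
            have h7 : ((q : ℝ) ^ J q) ^ (-(11 / 40) : ℝ) ≤ ((q : ℝ) ^ 4) ^ (-(11 / 40) : ℝ) :=
              Real.rpow_le_rpow_of_nonpos (by positivity) h6 (by norm_num)
            refine h7.trans (le_of_eq ?_)
            rw [← Real.rpow_natCast (q : ℝ) 4, ← Real.rpow_mul (by linarith),
              ← Real.rpow_neg (by linarith)]
            norm_num
        have h8 : 0 ≤ C1 * N := by positivity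
        calc C1 * N * Z ^ (-(19 / 40) : ℝ)
            ≤ C1 * N * (y * ((q : ℝ) ^ (11 / 10 : ℝ))⁻¹ + (Real.log N) ^ (-(19 / 40) : ℝ)) := by
              refine mul_le_mul_of_nonneg_left (h3.trans ?_) h8
              linarith
          _ = _ := by ring
      refine (sum_le_sum h1).trans ?_
      rw [sum_add_distrib, ← mul_sum, sum_const, nsmul_eq_mul]
      have h9 : ∑ q ∈ smallL N, ((q : ℝ) ^ (11 / 10 : ℝ))⁻¹ ≤ K :=
        hsum1.sum_le_tsum _ (fun n _ => by positivity)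
      have h10 : 0 ≤ C1 * N * y := by positivity
      have h11 := mul_le_mul_of_nonneg_left h9 h10
      have h12 : ((smallL N).card : ℝ) * (C1 * N * (Real.log N) ^ (-(19 / 40) : ℝ)) =
          C1 * N * (((smallL N).card : ℝ) * (Real.log N) ^ (-(19 / 40) : ℝ)) := by ring
      rw [h12]
      linarith
    have h13 : C1 * N * (((smallL N).card : ℝ) * (Real.log N) ^ (-(19 / 40) : ℝ)) ≤ y / 3 * N := by
      have h14 : C1 * N * (((smallL N).card : ℝ) * (Real.log N) ^ (-(19 / 40) : ℝ)) ≤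
          C1 * N * (y / (3 * C1)) := mul_le_mul_of_nonneg_left hsm (by positivity)
      refine h14.trans (le_of_eq ?_)
      field_simp
    have h15 : (n1 : ℝ) ≤ y / 3 * N := by
      rw [div_le_iff₀ hy0] at hNn
      linarith
    calc (B.card : ℝ) ≤ _ := hcardR
      _ ≤ y / 3 * N + ((C1 * N * y * K + y / 3 * N) + y / 3 * N) := by linarith
      _ = (C1 * K + 1) * N * y := by ring
  exact eventually_atTop.mp hev

end Pool.Agent.EKF
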