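import Pool.Agent.EKF.Core
import Pool.Agent.EKF.Lin
import Pool.Agent.PnLG.NCPoly

/-!
# Prime powers dividing `p_n + 2 P(n)`: the final form
-/

set_option autoImplicit false

namespace Pool.Agent.EKF

open Finset Polynomial Filter
open Pool.Agent.PnPoly.NC (np np_strictMono np_le np_prime)

/-- the polynomial for the index shifted by one -/
noncomputable def shQ (P : ℚ[X]) : ℚ[X] := C 2 * P.comp (X + C 1)

lemma shQ_natDegree (P : ℚ[X]) : (shQ P).natDegree = P.natDegree := by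
  unfold shQ
  rw [natDegree_C_mul (by norm_num), natDegree_comp, natDegree_X_add_C, mul_one]

lemma shQ_eval (P : ℚ[X]) (m : ℤ) : (shQ P).eval (m : ℚ) = 2 * P.eval ((m + 1 : ℤ) : ℚ) := by
  unfold shQ
  rw [eval_mul, eval_C, eval_comp]
  simp

lemma shQ_int (P : ℚ[X]) (hPi : ∀ m : ℤ, ∃ k : ℤ, P.eval (m : ℚ) = (k : ℚ)) :
    ∀ m : ℤ, ∃ k : ℤ, (shQ P).eval (m : ℚ) = (k : ℚ) := by
  intro m
  obtain ⟨k, hk⟩ := hPi (m + 1)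
  refine ⟨2 * k, ?_⟩
  rw [shQ_eval, hk]
  push_cast
  ring

lemma shQ_lc (P : ℚ[X]) (hlc : 0 < P.leadingCoeff) : 0 < (shQ P).leadingCoeff := by
  have h1 : (shQ P).leadingCoeff = 2 * P.leadingCoeff := by
    unfold shQ
    rw [leadingCoeff_mul, leadingCoeff_C, leadingCoeff_comp (by rw [natDegree_X_add_C]; norm_num),
      leadingCoeff_X_add_C, one_pow, mul_one]
  rw [h1]
  linarith

/-- the set of `1 ≤ n ≤ N` for which a prime power `q ^ j > Y`, `j ≥ k`, divides `p_n + 2 P(n)` -/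
def badSet (P : ℚ[X]) (k : ℕ) (Y : ℝ) (N : ℕ) : Set ℕ :=
  {n : ℕ | 1 ≤ n ∧ n ≤ N ∧ ∃ q j : ℕ, q.Prime ∧ k ≤ j ∧ Y < (q : ℝ) ^ j ∧ ∃ z : ℤ,
    ((Nat.nth Nat.Prime (n - 1) : ℕ) : ℚ) + 2 * P.eval (n : ℚ) = (q : ℚ) ^ j * z}

lemma badSet_le (P : ℚ[X]) (hPi : ∀ m : ℤ, ∃ k : ℤ, P.eval (m : ℚ) = (k : ℚ)) (k : ℕ) (Y : ℝ)
    (N : ℕ) (bd : ℝ) (h : ∀ B : Finset ℕ,
      (∀ n ∈ B, n < N ∧ ∃ q j : ℕ, q.Prime ∧ k ≤ j ∧ Y < (q : ℝ) ^ j ∧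
        ((q ^ j : ℕ) : ℤ) ∣ vp n + ⌊(shQ P).eval (n : ℚ)⌋) → (B.card : ℝ) ≤ bd) :
    ((badSet P k Y N).ncard : ℝ) ≤ bd := by
  classical
  have hSf : badSet P k Y N ⊆
      ((((range N).filter (fun m => m + 1 ∈ badSet P k Y N)).image (fun m => m + 1) : Finset ℕ) :
        Set ℕ) := by
    intro n hn
    have hn' := hn
    obtain ⟨hn1, hn2, -⟩ := hn
    rw [coe_image, Set.mem_image]
    refine ⟨n - 1, ?_, Nat.sub_add_cancel hn1⟩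
    rw [mem_coe, mem_filter, mem_range]
    refine ⟨by omega, ?_⟩
    rw [Nat.sub_add_cancel hn1]
    exact hn'
  have h1 := Set.ncard_le_ncard hSf (Finset.finite_toSet _)
  rw [Set.ncard_coe_finset] at h1
  have h2 : (badSet P k Y N).ncard ≤ ((range N).filter (fun m => m + 1 ∈ badSet P k Y N)).card :=
    h1.trans card_image_le
  have h3 := h ((range N).filter (fun m => m + 1 ∈ badSet P k Y N)) (by
    intro m hm
    rw [mem_filter, mem_range] at hm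
    obtain ⟨hmN, -, -, q, j, hq, hj, hYq, z, hz⟩ := hm
    refine ⟨hmN, q, j, hq, hj, hYq, z, ?_⟩
    obtain ⟨k, hk⟩ := hPi ((m : ℤ) + 1)
    have e1 := shQ_eval P (m : ℤ)
    rw [hk] at e1
    have e2 : ((m : ℤ) : ℚ) = (m : ℚ) := by push_cast; rfl
    rw [e2] at e1
    have e3 : ⌊(shQ P).eval (m : ℚ)⌋ = 2 * k := by
      rw [e1, show (2:ℚ) * (k : ℚ) = ((2 * k : ℤ) : ℚ) by push_cast; ring, Int.floor_intCast]
    rw [e3]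
    rw [Nat.add_sub_cancel] at hz
    have e4 : (((m + 1 : ℕ)) : ℚ) = (((m : ℤ) + 1 : ℤ) : ℚ) := by push_cast; ring
    rw [e4, hk] at hz
    have e5 : ((vp m + 2 * k : ℤ) : ℚ) = ((((q ^ j : ℕ) : ℤ) * z : ℤ) : ℚ) := by
      unfold vp np
      push_cast
      exact hz
    exact_mod_cast e5)
  have h4 : ((badSet P k Y N).ncard : ℝ) ≤
      (((range N).filter (fun m => m + 1 ∈ badSet P k Y N)).card : ℝ) := by exact_mod_cast h2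
  exact h4.trans h3

theorem final (d : ℕ) : ∃ C : ℝ, ∀ P : ℚ[X], P.natDegree ≤ d →
    (∀ m : ℤ, ∃ k : ℤ, P.eval (m : ℚ) = (k : ℚ)) → 0 < P.leadingCoeff → ∀ Y : ℝ, 1 ≤ Y →
    ∃ N₀ : ℕ, ∀ N : ℕ, N₀ ≤ N →
      ((badSet P (12 * d ^ 2 + 36 * d + 49) Y N).ncard : ℝ) ≤ C * N * Y ^ (-(1 / 3) : ℝ) := by
  classical
  obtain ⟨C1, hC1, h⟩ := Pool.Agent.PnLG.nc_poly d (1 / 8) (by norm_num)
  refine ⟨C1 + 1, fun P hPd hPi hlc Y hY => ?_⟩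
  have hnc : ∀ N q : ℕ, 1 ≤ q → ∀ Z : ℝ, 1 ≤ Z → Z ≤ q → Z ≤ Real.log N → ∀ P : ℚ[X],
      P.natDegree ≤ d → (∀ m : ℤ, ∃ k : ℤ, P.eval (m : ℚ) = k) →
      (cnt vp P N q : ℝ) ≤ C1 * N * Z ^ (-(3 / 8) : ℝ) := by
    intro N q hq Z hZ hZq hZN P hP hPi
    have h1 := h N q hq Z hZ hZq hZN P hP hPi
    have h2 : (-(1 / 2) + 1 / 8 : ℝ) = -(3 / 8) := by norm_num
    rw [h2] at h1
    unfold cnt vp
    exact h1
  obtain ⟨N0, hN0⟩ := core d C1 hC1 hnc (12 * d ^ 2 + 36 * d + 49) (by nlinarith) (by nlinarith)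
    (by nlinarith) (shQ P) (by rw [shQ_natDegree]; exact hPd) (shQ_int P hPi) (shQ_lc P hlc) Y hY
  exact ⟨N0, fun N hN => badSet_le P hPi _ Y N _ (hN0 N hN)⟩

theorem final_lin : ∃ C : ℝ, ∀ P : ℚ[X], P.natDegree ≤ 1 →
    (∀ m : ℤ, ∃ k : ℤ, P.eval (m : ℚ) = (k : ℚ)) → 0 < P.leadingCoeff → ∀ Y : ℝ, 1 ≤ Y →
    ∃ N₀ : ℕ, ∀ N : ℕ, N₀ ≤ N →
      ((badSet P 4 Y N).ncard : ℝ) ≤ C * N * Y ^ (-(1 / 5) : ℝ) := by
  classical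
  obtain ⟨C1, hC1, h⟩ := Pool.Agent.PnLG.nc_poly 1 (1 / 40) (by norm_num)
  have hnc : ∀ N q : ℕ, 1 ≤ q → ∀ Z : ℝ, 1 ≤ Z → Z ≤ q → Z ≤ Real.log N → ∀ P : ℚ[X],
      P.natDegree ≤ 1 → (∀ m : ℤ, ∃ k : ℤ, P.eval (m : ℚ) = k) →
      (cnt vp P N q : ℝ) ≤ C1 * N * Z ^ (-(19 / 40) : ℝ) := by
    intro N q hq Z hZ hZq hZN P hP hPi
    have h1 := h N q hq Z hZ hZq hZN P hP hPi
    have h2 : (-(1 / 2) + 1 / 40 : ℝ) = -(19 / 40) := by norm_num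
    rw [h2] at h1
    unfold cnt vp
    exact h1
  obtain ⟨C, hC⟩ := core_lin C1 hC1 hnc
  refine ⟨C, fun P hPd hPi hlc Y hY => ?_⟩
  obtain ⟨N0, hN0⟩ := hC (shQ P) (by rw [shQ_natDegree]; exact hPd) (shQ_int P hPi) (shQ_lc P hlc) Y hY
  exact ⟨N0, fun N hN => badSet_le P hPi _ Y N _ (hN0 N hN)⟩

end Pool.Agent.EKF
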