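import Pool.Agent.EKF.NCSetE
import Pool.Agent.PnLG.NCPoly

/-!
# Non-concentration modulo `q` with the saving `min (q, (log N)²) ^ (1/2 - ε)`
-/

open Finset Filter

namespace Pool.Agent.EKF

open Pool.Agent.PnLG
open Pool.Agent.PnPoly.NC (np)

/-- non-concentration for every periodic function -/
theorem nc_periodic2 (A : ℕ) (ε : ℝ) (hε : 0 < ε) : ∃ C : ℝ, 0 < C ∧ ∀ N q M : ℕ, ∀ Z : ℝ, 1 ≤ q →
    1 ≤ Z → Z ≤ q → Z ≤ Real.log N ^ 2 → 1 ≤ M → (M : ℝ) ≤ A * Z ^ A → ∀ F : ℕ → ℤ,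
    (∀ n, F (n + M) = F n) →
    (((range N).filter (fun n => (q : ℤ) ∣ (np n : ℤ) - F n)).card : ℝ) ≤ C * N * Z ^ (-(1 / 2) + ε) := by
  obtain ⟨r, C, hC, h⟩ := nc_set2 A A 1 le_rfl ε hε
  refine ⟨C, hC, fun N q M Z hq hZ hZq hZN hM hMA F hF => ?_⟩
  refine h N q Z hq hZ hZq hZN M hMA _ (Finset.filter_subset _ _) ?_
  exact ncper_pat r q M hM Z F hF _ fun n hn => (Finset.mem_filter.mp hn).2

/-- integer-valued polynomials modulo a prime -/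
theorem nc_prime2 (d : ℕ) (ε : ℝ) (hε : 0 < ε) : ∃ C : ℝ, 0 < C ∧ ∀ N q : ℕ, q.Prime → ∀ Z : ℝ, 1 ≤ Z →
    Z ≤ q → Z ≤ Real.log N ^ 2 → ∀ P : Polynomial ℚ, P.natDegree ≤ d → IntVal P →
    (((range N).filter (fun n => (q : ℤ) ∣ (np n : ℤ) + ⌊P.eval (n : ℚ)⌋)).card : ℝ) ≤
      C * N * Z ^ (-(1 / 2) + ε) := by
  obtain ⟨r, C, hC, h⟩ := nc_set2 0 1 (d + 1) (by omega) ε hε
  refine ⟨C, hC, fun N q hq Z hZ hZq hZN P hPd hP => ?_⟩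
  refine h N q Z hq.one_le hZ hZq hZN 1 (by simp) _ (Finset.filter_subset _ _) ?_
  exact ncprime_pat r d hq hZq hPd hP _ fun n hn => (Finset.mem_filter.mp hn).2

open scoped Nat in
/-- polynomials modulo an arbitrary `q` -/
theorem nc_poly2 (d : ℕ) (ε : ℝ) (hε : 0 < ε) : ∃ C : ℝ, 0 < C ∧ ∀ N q : ℕ, 1 ≤ q → ∀ Z : ℝ, 1 ≤ Z →
    Z ≤ q → Z ≤ Real.log N ^ 2 → ∀ P : Polynomial ℚ, P.natDegree ≤ d → IntVal P →
    (((range N).filter (fun n => (q : ℤ) ∣ (np n : ℤ) + ⌊P.eval (n : ℚ)⌋)).card : ℝ) ≤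
      C * N * Z ^ (-(1 / 2) + ε) := by
  obtain ⟨C1, hC1, h1⟩ := nc_prime2 d ε hε
  obtain ⟨C2, hC2, h2⟩ := nc_periodic2 (d ! + 2) ε hε
  refine ⟨C1 + C2, by positivity, ?_⟩
  intro N q hq Z hZ hZq hZN P hPd hP
  have hZ0 : (0 : ℝ) < Z := by linarith
  have hpow : 0 < Z ^ (-(1 / 2) + ε : ℝ) := Real.rpow_pos_of_pos hZ0 _
  by_cases hp : ∃ p : ℕ, p.Prime ∧ p ∣ q ∧ Z ≤ p
  · obtain ⟨p, hpp, hpq, hpZ⟩ := hp
    have h3 := h1 N p hpp Z hZ hpZ hZN P hPd hP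
    calc (((range N).filter (fun n => (q : ℤ) ∣ (np n : ℤ) + ⌊P.eval (n : ℚ)⌋)).card : ℝ)
        ≤ (((range N).filter (fun n => (p : ℤ) ∣ (np n : ℤ) + ⌊P.eval (n : ℚ)⌋)).card : ℝ) := by
          exact_mod_cast Finset.card_le_card (Finset.monotone_filter_right _ fun n _ hn =>
            (Int.natCast_dvd_natCast.mpr hpq).trans hn)
      _ ≤ C1 * N * Z ^ (-(1 / 2) + ε) := h3
      _ ≤ (C1 + C2) * N * Z ^ (-(1 / 2) + ε) := by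
          gcongr
          linarith
  · push Not at hp
    obtain ⟨q', hq'q, hq'1, hq'Z, hq'Z2⟩ := NCPoly_divisor q hq Z hZ hZq hp
    have hM1 : 1 ≤ q' * d ! := Nat.mul_pos hq'1 (Nat.factorial_pos d)
    have hMle : ((q' * d ! : ℕ) : ℝ) ≤ ((d ! + 2 : ℕ) : ℝ) * Z ^ (d ! + 2) := by
      push_cast
      have e1 : Z ^ 2 ≤ Z ^ (d ! + 2) := pow_le_pow_right₀ hZ (by omega)
      have e2 : (0 : ℝ) ≤ (d ! : ℝ) := by positivity
      calc (q' : ℝ) * (d ! : ℝ) ≤ Z ^ (d ! + 2) * ((d ! : ℝ) + 2) := by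
            gcongr
            · linarith
            · linarith
        _ = _ := by ring
    have hF : ∀ n : ℕ, (-⌊P.eval ((n + q' * d ! : ℕ) : ℚ)⌋) % (q' : ℤ) = (-⌊P.eval (n : ℚ)⌋) % (q' : ℤ) := by
      intro n
      apply Int.ModEq.symm
      apply (Int.modEq_iff_dvd).mpr
      have h := NCPoly_period P hP d hPd q' n
      have e : -⌊P.eval ((n + q' * d ! : ℕ) : ℚ)⌋ - -⌊P.eval (n : ℚ)⌋ =
        -(⌊P.eval ((n + q' * d ! : ℕ) : ℚ)⌋ - ⌊P.eval (n : ℚ)⌋) := by ring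
      rw [e]
      exact (dvd_neg).mpr h
    have h3 := h2 N q' (q' * d !) Z hq'1 hZ hq'Z hZN hM1 hMle
      (fun n => (-⌊P.eval (n : ℚ)⌋) % (q' : ℤ)) hF
    calc (((range N).filter (fun n => (q : ℤ) ∣ (np n : ℤ) + ⌊P.eval (n : ℚ)⌋)).card : ℝ)
        ≤ (((range N).filter (fun n => (q' : ℤ) ∣ (np n : ℤ) - (-⌊P.eval (n : ℚ)⌋) % (q' : ℤ))).card : ℝ) := by
          refine Nat.cast_le.mpr (Finset.card_le_card (Finset.monotone_filter_right _ fun n _ hn => ?_))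
          have h4 : (q' : ℤ) ∣ (np n : ℤ) + ⌊P.eval (n : ℚ)⌋ := (Int.natCast_dvd_natCast.mpr hq'q).trans hn
          have h5 : (q' : ℤ) ∣ (-⌊P.eval (n : ℚ)⌋) - (-⌊P.eval (n : ℚ)⌋) % (q' : ℤ) := Int.dvd_self_sub_emod
          have : (np n : ℤ) - (-⌊P.eval (n : ℚ)⌋) % (q' : ℤ) =
              ((np n : ℤ) + ⌊P.eval (n : ℚ)⌋) + ((-⌊P.eval (n : ℚ)⌋) - (-⌊P.eval (n : ℚ)⌋) % (q' : ℤ)) := by ring
          rw [this]
          exact dvd_add h4 h5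
      _ ≤ C2 * N * Z ^ (-(1 / 2) + ε) := h3
      _ ≤ (C1 + C2) * N * Z ^ (-(1 / 2) + ε) := by
          gcongr
          linarith

end Pool.Agent.EKF
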