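import Pool.Agent.EKF.Fin
import Pool.Agent.EKF.Lin3
import Pool.Agent.EKF.NC2

/-!
# Cubes dividing `p_n + 2 P(n)`, `P` of degree at most one
-/

set_option autoImplicit false

namespace Pool.Agent.EKF

open Finset Polynomial Filter
open Pool.Agent.PnPoly.NC (np np_strictMono np_le np_prime)

theorem final_lin3 : ∃ C : ℝ, ∀ P : ℚ[X], P.natDegree ≤ 1 →
    (∀ m : ℤ, ∃ k : ℤ, P.eval (m : ℚ) = (k : ℚ)) → 0 < P.leadingCoeff → ∀ Y : ℝ, 1 ≤ Y →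
    ∃ N₀ : ℕ, ∀ N : ℕ, N₀ ≤ N →
      ((badSet P 3 Y N).ncard : ℝ) ≤ C * N * Y ^ (-(1 / 10) : ℝ) := by
  classical
  obtain ⟨C1, hC1, h⟩ := nc_poly2 1 (1 / 40) (by norm_num)
  have hnc : ∀ N q : ℕ, 1 ≤ q → ∀ Z : ℝ, 1 ≤ Z → Z ≤ q → Z ≤ Real.log N ^ 2 → ∀ P : ℚ[X],
      P.natDegree ≤ 1 → (∀ m : ℤ, ∃ k : ℤ, P.eval (m : ℚ) = k) →
      (cnt vp P N q : ℝ) ≤ C1 * N * Z ^ (-(19 / 40) : ℝ) := by
    intro N q hq Z hZ hZq hZN P hP hPi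
    have h1 := h N q hq Z hZ hZq hZN P hP hPi
    have h2 : (-(1 / 2) + 1 / 40 : ℝ) = -(19 / 40) := by norm_num
    rw [h2] at h1
    unfold cnt vp
    exact h1
  obtain ⟨C, hC⟩ := core_lin3 C1 hC1 hnc
  refine ⟨C, fun P hPd hPi hlc Y hY => ?_⟩
  obtain ⟨N0, hN0⟩ := hC (shQ P) (by rw [shQ_natDegree]; exact hPd) (shQ_int P hPi) (shQ_lc P hlc) Y hY
  exact ⟨N0, fun N hN => badSet_le P hPi _ Y N _ (hN0 N hN)⟩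

end Pool.Agent.EKF
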