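import Pool.Agent.EKF.PerQ
import Pool.Agent.PnPoly.NC.Param

/-!
# The contribution of the large primes `q` is `o(N)`
-/

set_option autoImplicit false

namespace Pool.Agent.EKF

open Finset Polynomial Filter
open Pool.Agent.PnPoly.NC (np np_strictMono np_le)

/-- the primes as integers -/
noncomputable def vp (n : ℕ) : ℤ := (np n : ℤ)

lemma vp_mono : StrictMono vp := fun a b h => by
  unfold vp
  exact_mod_cast np_strictMono h

/-- the logarithm, rounded up -/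
noncomputable def Lam (N : ℕ) : ℕ := ⌈Real.log N⌉₊

/-- the large primes -/
noncomputable def bigQ (N : ℕ) : Finset ℕ :=
  (range (N + 1)).filter (fun q => 1 ≤ q ∧ Lam N ≤ q ^ 8 ∧ q ^ 20 ≤ N)

lemma size_cond (Q : ℚ[X]) (d k : ℕ) (hQd : Q.natDegree ≤ d)
    (hk : 12 * ((d + 1) ^ 2 + (d + 1) + 2) + 1 ≤ k) (q L : ℕ) (hL1 : 1 ≤ L) (hL : L ≤ q ^ 12)
    (hq : (((max Q.natDegree 1 : ℕ) : ℚ) + 1) + |Q.coeff (max Q.natDegree 1)| < q) :
    (((max Q.natDegree 1 : ℕ) : ℚ) + 1) *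
        (L : ℚ) ^ ((max Q.natDegree 1) * (max Q.natDegree 1)) * (L : ℚ) ^ 2 +
      |Q.coeff (max Q.natDegree 1)| * (L : ℚ) ^ ((max Q.natDegree 1) * ((max Q.natDegree 1) + 1)) <
      ((q ^ k : ℕ) : ℚ) := by
  set D := max Q.natDegree 1 with hD
  have hDd : D ≤ d + 1 := by rw [hD]; exact max_le (by omega) (by omega)
  have hL1' : (1 : ℚ) ≤ L := by exact_mod_cast hL1
  have hq1 : (1 : ℚ) ≤ q := by
    have h1 : (0 : ℚ) ≤ |Q.coeff D| := abs_nonneg _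
    have h2 : (0 : ℚ) ≤ (D : ℚ) := by positivity
    linarith
  have e1 : (L : ℚ) ^ (D * D) * (L : ℚ) ^ 2 ≤ (L : ℚ) ^ (D * D + D + 2) := by
    rw [← pow_add]
    exact pow_le_pow_right₀ hL1' (by omega)
  have e2 : (L : ℚ) ^ (D * (D + 1)) ≤ (L : ℚ) ^ (D * D + D + 2) :=
    pow_le_pow_right₀ hL1' (by nlinarith)
  have e3 : (L : ℚ) ^ (D * D + D + 2) ≤ (q : ℚ) ^ (12 * (D * D + D + 2)) := by
    have h1 : (L : ℚ) ≤ (q : ℚ) ^ 12 := by exact_mod_cast hL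
    rw [pow_mul]
    exact pow_le_pow_left₀ (by positivity) h1 _
  have e4 : (q : ℚ) ^ (12 * (D * D + D + 2)) * q ≤ ((q ^ k : ℕ) : ℚ) := by
    rw [← pow_succ]
    push_cast
    refine pow_le_pow_right₀ hq1 (le_trans ?_ hk)
    have : D * D + D + 2 ≤ (d + 1) ^ 2 + (d + 1) + 2 := by nlinarith
    omega
  have hpos : (0 : ℚ) < (q : ℚ) ^ (12 * (D * D + D + 2)) := by positivity
  have ha : (0 : ℚ) ≤ |Q.coeff D| := abs_nonneg _
  calc ((D : ℚ) + 1) * (L : ℚ) ^ (D * D) * (L : ℚ) ^ 2 + |Q.coeff D| * (L : ℚ) ^ (D * (D + 1))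
      = ((D : ℚ) + 1) * ((L : ℚ) ^ (D * D) * (L : ℚ) ^ 2) + |Q.coeff D| * (L : ℚ) ^ (D * (D + 1)) := by
        ring
    _ ≤ ((D : ℚ) + 1) * (q : ℚ) ^ (12 * (D * D + D + 2)) +
          |Q.coeff D| * (q : ℚ) ^ (12 * (D * D + D + 2)) :=
        add_le_add (mul_le_mul_of_nonneg_left (e1.trans e3) (by positivity))
          (mul_le_mul_of_nonneg_left (e2.trans e3) ha)
    _ = (q : ℚ) ^ (12 * (D * D + D + 2)) * (((D : ℚ) + 1) + |Q.coeff D|) := by ring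
    _ < (q : ℚ) ^ (12 * (D * D + D + 2)) * q := mul_lt_mul_of_pos_left hq hpos
    _ ≤ _ := e4

lemma vp_bound : ∀ᶠ N : ℕ in atTop, ∀ L : ℕ, L ≤ N → 1 ≤ L →
    (vp ((N / L + 1) * L) : ℝ) ≤ 36 * (N * (Lam N : ℝ)) := by
  obtain ⟨N0, h0⟩ := eventually_atTop.mp np_le
  filter_upwards [eventually_ge_atTop (max N0 2)] with N hN L hLN hL1
  have hN0 : N0 ≤ 2 * N := by have := le_max_left N0 2; omega
  have hN2 : 2 ≤ N := le_trans (le_max_right _ _) hN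
  have h1 : (N / L + 1) * L ≤ 2 * N := by
    have := Nat.div_mul_le_self N L
    rw [add_mul, one_mul]
    omega
  have h2 : vp ((N / L + 1) * L) ≤ vp (2 * N) := vp_mono.monotone h1
  have h3 := h0 (2 * N) hN0
  have h4 : (vp ((N / L + 1) * L) : ℝ) ≤ (np (2 * N) : ℝ) := by
    have : (vp ((N / L + 1) * L) : ℝ) ≤ (vp (2 * N) : ℝ) := by exact_mod_cast h2
    refine this.trans (le_of_eq ?_)
    unfold vp
    push_cast
    rfl
  have hNr : (2 : ℝ) ≤ N := by exact_mod_cast hN2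
  have h5 : Real.log ((2 * N : ℕ) : ℝ) ≤ 2 * Real.log N := by
    push_cast
    rw [Real.log_mul (by norm_num) (by linarith)]
    have := Real.log_le_log (by norm_num) hNr
    linarith
  have h6 : Real.log N ≤ Lam N := Nat.le_ceil _
  have h7 : 0 ≤ Real.log N := Real.log_nonneg (by linarith)
  calc (vp ((N / L + 1) * L) : ℝ) ≤ 9 * (((2 * N : ℕ) : ℝ) * Real.log ((2 * N : ℕ) : ℝ)) := h4.trans h3
    _ ≤ 9 * (((2 * N : ℕ) : ℝ) * (2 * Real.log N)) := by gcongr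
    _ ≤ 9 * (((2 * N : ℕ) : ℝ) * (2 * (Lam N : ℝ))) := by gcongr
    _ = 36 * (N * (Lam N : ℝ)) := by push_cast; ring

theorem perq_big (Q : ℚ[X]) (hQi : ∀ m : ℤ, ∃ k : ℤ, Q.eval (m : ℚ) = k)
    (hlc : 0 < Q.leadingCoeff) (d k : ℕ) (hQd : Q.natDegree ≤ d)
    (hk : 12 * ((d + 1) ^ 2 + (d + 1) + 2) + 1 ≤ k) : ∃ C0 : ℝ, 1 ≤ C0 ∧ ∀ᶠ N : ℕ in atTop,
    ∀ q ∈ bigQ N, (cnt vp Q N (q ^ k) : ℝ) ≤
      C0 * (38 * (N * ((q : ℝ) ^ 2)⁻¹) + 2 * ((q : ℝ) ^ 2 * (Lam N : ℝ))) := by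
  obtain ⟨C0, hC0, h⟩ := perq Q hQi hlc
  refine ⟨C0, hC0, ?_⟩
  obtain ⟨q0, hq0⟩ := exists_nat_gt ((((max Q.natDegree 1 : ℕ) : ℚ) + 1) + |Q.coeff (max Q.natDegree 1)|)
  have hLam : Tendsto (fun N : ℕ => (Lam N : ℝ)) atTop atTop := by
    refine tendsto_atTop_mono (fun N => Nat.le_ceil (Real.log N)) ?_
    exact Real.tendsto_log_atTop.comp tendsto_natCast_atTop_atTop
  have hlog : ∀ᶠ N : ℕ in atTop, (Lam N : ℝ) ^ 2 ≤ N := by
    have h1 : ∀ᶠ N : ℕ in atTop, 9 * Real.log N ^ 2 ≤ N := by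
      have h2 := (Real.isLittleO_pow_log_id_atTop (n := 2)).bound (by norm_num : (0 : ℝ) < 1 / 9)
      have h3 := tendsto_natCast_atTop_atTop (R := ℝ) |>.eventually h2
      filter_upwards [h3, eventually_ge_atTop 1] with N hN hN1
      simp only [id, Real.norm_eq_abs] at hN
      rw [abs_of_nonneg (by positivity), abs_of_nonneg (by positivity)] at hN
      linarith
    have h4 : ∀ᶠ N : ℕ in atTop, 1 ≤ Real.log N :=
      (Real.tendsto_log_atTop.comp tendsto_natCast_atTop_atTop).eventually_ge_atTop 1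
    filter_upwards [h1, h4] with N hN1 hN4
    have h5 : (Lam N : ℝ) < Real.log N + 1 := Nat.ceil_lt_add_one (by linarith)
    have h6 : (0 : ℝ) ≤ Lam N := by positivity
    nlinarith
  filter_upwards [vp_bound, hLam.eventually_gt_atTop ((q0 : ℝ) ^ 8), hLam.eventually_ge_atTop 1, hlog,
    eventually_ge_atTop 1] with N hvb hL8 hL1 hL2 hN1 q hq
  unfold bigQ at hq
  rw [mem_filter, mem_range] at hq
  obtain ⟨hqN, hq1, hq8, hq20⟩ := hq
  have hΛ1 : 1 ≤ Lam N := by exact_mod_cast hL1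
  have hqq0 : q0 < q := by
    have h1 : q0 ^ 8 < q ^ 8 := by
      have : q0 ^ 8 < Lam N := by exact_mod_cast hL8
      omega
    exact lt_of_pow_lt_pow_left₀ 8 (Nat.zero_le _) h1
  set L := q ^ 4 * Lam N with hL
  have hL1' : 1 ≤ L := Nat.mul_pos (pow_pos hq1 4) hΛ1
  have hL12 : L ≤ q ^ 12 := by
    calc L ≤ q ^ 4 * q ^ 8 := Nat.mul_le_mul_left _ hq8
      _ = q ^ 12 := by ring
  have hLN : L ≤ N := by
    have h1 : (L : ℝ) ^ 2 ≤ (N : ℝ) ^ 2 := by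
      rw [hL]
      push_cast
      have h2 : (q : ℝ) ^ 20 ≤ N := by exact_mod_cast hq20
      have hqr : (1 : ℝ) ≤ q := by exact_mod_cast hq1
      have h3 : (q : ℝ) ^ 8 ≤ (q : ℝ) ^ 20 := pow_le_pow_right₀ hqr (by norm_num)
      calc ((q : ℝ) ^ 4 * (Lam N : ℝ)) ^ 2 = (q : ℝ) ^ 8 * (Lam N : ℝ) ^ 2 := by ring
        _ ≤ (N : ℝ) * N := mul_le_mul (h3.trans h2) hL2 (by positivity) (by positivity)
        _ = (N : ℝ) ^ 2 := by ring
    have h2 := (sq_le_sq₀ (by positivity) (by positivity)).mp h1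
    exact_mod_cast h2
  have hqr : (1 : ℝ) ≤ q := by exact_mod_cast hq1
  have hΛr : (1 : ℝ) ≤ Lam N := hL1
  set R : ℝ := (q : ℝ) ^ 2 * Lam N with hR
  have hR1 : 1 ≤ R := by
    have h1 : (1 : ℝ) ≤ (q : ℝ) ^ 2 := one_le_pow₀ hqr
    nlinarith
  have hRL : R ≤ L := by
    rw [hR, hL]
    push_cast
    have h1 : (q : ℝ) ^ 2 ≤ (q : ℝ) ^ 4 := pow_le_pow_right₀ hqr (by norm_num)
    nlinarith
  have hcond := size_cond Q d k hQd hk q L hL1' hL12 (lt_trans hq0 (by exact_mod_cast hqq0))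
  have h1 := h vp vp_mono (by unfold vp; positivity) N (q ^ k) L R hL1' hR1 hRL (by exact_mod_cast hcond)
  refine h1.trans (mul_le_mul_of_nonneg_left ?_ (by linarith))
  have hR0 : 0 < R := by linarith
  have h2 : (vp ((N / L + 1) * L) : ℝ) / R ≤ 36 * (N * ((q : ℝ) ^ 2)⁻¹) := by
    rw [div_le_iff₀ hR0]
    refine (hvb L hLN hL1').trans (le_of_eq ?_)
    rw [hR]
    have : (q : ℝ) ≠ 0 := by linarith
    field_simp
  have h3 : 2 * R * ((N / L + 1 : ℕ) : ℝ) ≤ 2 * (N * ((q : ℝ) ^ 2)⁻¹) + 2 * ((q : ℝ) ^ 2 * (Lam N : ℝ)) := by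
    have h4 : ((N / L + 1 : ℕ) : ℝ) ≤ (N : ℝ) / L + 1 := by
      push_cast
      have := @Nat.cast_div_le ℝ _ _ _ N L
      linarith
    have h5 : 2 * R * ((N / L + 1 : ℕ) : ℝ) ≤ 2 * R * ((N : ℝ) / L + 1) :=
      mul_le_mul_of_nonneg_left h4 (by linarith)
    refine h5.trans (le_of_eq ?_)
    rw [hR, hL]
    push_cast
    have hq0' : (q : ℝ) ≠ 0 := by linarith
    have hΛ0 : (Lam N : ℝ) ≠ 0 := by linarith
    field_simp
  linarith

end Pool.Agent.EKF
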