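import Pool.Agent.PnLG.NCSet

/-!
# Abstract non-concentration for moduli up to `(log N) ^ 2`
-/

open Finset Filter Complex
open scoped ArithmeticFunction.Moebius ArithmeticFunction.vonMangoldt

namespace Pool.Agent.EKF

open Pool.Agent.PnLG
open Pool.Agent.ANT
open Pool.Agent.PnPoly.NC (np)
open Pool.Agent.HL26
open Pool.Agent.PnPoly.NC hiding np

/-- the estimate for the tail -/
lemma tail_boundE {Z e x l Cs : ℝ} {L k s : ℕ} (hZ : 1 ≤ Z) (hl : 1 ≤ l) (hx : 0 ≤ x)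
    (hkl : (k : ℝ) ≤ l) (hCs : 0 ≤ Cs) (hkZ : (k : ℝ) ≤ Z) (hk : Z ^ (1 / 2 - e) ≤ k)
    (hL : (L : ℝ) + 1 ≤ 2 * Z ^ (1 / 2 - 2 * e) * l) (he : 0 < e)
    (hs : 1 ≤ e * s) (hxl : l ^ (s + 1) ≤ x) :
    Cs * k * (x * (((L : ℝ) + 1) / (k * l)) ^ s + (((L : ℝ) + 1) / k) ^ s) ≤
      Cs * (2 * 2 ^ s * x) := by
  have hZ0 : 0 < Z := by linarith
  have hl0 : 0 < l := by linarith
  have hk0 : (0 : ℝ) < k := lt_of_lt_of_le (by positivity) hk
  have h1 : ((L : ℝ) + 1) / (k * l) ≤ 2 * Z ^ (-e) := by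
    rw [div_le_iff₀ (by positivity)]
    refine hL.trans ?_
    have h2 : Z ^ (1 / 2 - 2 * e) = Z ^ (-e) * Z ^ (1 / 2 - e) := by
      rw [← Real.rpow_add hZ0]; congr 1; ring
    rw [h2]
    have h3 : 2 * (Z ^ (-e) * Z ^ (1 / 2 - e)) * l ≤ 2 * (Z ^ (-e) * k) * l := by gcongr
    linarith
  have h2 : ((L : ℝ) + 1) / k ≤ 2 * l := by
    have h3 : ((L : ℝ) + 1) / k = ((L : ℝ) + 1) / (k * l) * l := by field_simp
    rw [h3]
    have h4 : Z ^ (-e) ≤ 1 := Real.rpow_le_one_of_one_le_of_nonpos hZ (by linarith)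
    have h5 : ((L : ℝ) + 1) / (k * l) ≤ 2 := by linarith
    exact mul_le_mul_of_nonneg_right h5 hl0.le
  have h3 : (k : ℝ) * (((L : ℝ) + 1) / (k * l)) ^ s ≤ 2 ^ s := by
    calc (k : ℝ) * (((L : ℝ) + 1) / (k * l)) ^ s ≤ Z * (2 * Z ^ (-e)) ^ s := by gcongr
      _ = 2 ^ s * (Z ^ (1 : ℝ) * Z ^ (-e * s)) := by
          rw [mul_pow, ← Real.rpow_natCast (Z ^ (-e)), ← Real.rpow_mul hZ0.le, Real.rpow_one]
          ring
      _ ≤ 2 ^ s * 1 := by
          apply mul_le_mul_of_nonneg_left _ (by positivity)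
          rw [← Real.rpow_add hZ0]
          apply Real.rpow_le_one_of_one_le_of_nonpos hZ
          linarith
      _ = 2 ^ s := mul_one _
  have h4 : (k : ℝ) * (((L : ℝ) + 1) / k) ^ s ≤ 2 ^ s * x := by
    calc (k : ℝ) * (((L : ℝ) + 1) / k) ^ s ≤ l * (2 * l) ^ s := by
          gcongr
      _ = 2 ^ s * l ^ (s + 1) := by rw [mul_pow]; ring
      _ ≤ 2 ^ s * x := by gcongr
  have h5 : Cs * k * (x * (((L : ℝ) + 1) / (k * l)) ^ s + (((L : ℝ) + 1) / k) ^ s) =
      Cs * (x * (k * (((L : ℝ) + 1) / (k * l)) ^ s) + k * (((L : ℝ) + 1) / k) ^ s) := by ring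
  rw [h5]
  apply mul_le_mul_of_nonneg_left _ hCs
  have h6 := mul_le_mul_of_nonneg_left h3 hx
  linarith


open Pool.Agent.PnLG.NCSet in
/-- **abstract non-concentration** -/
theorem nc_setE (A K0 d' : ℕ) (hd' : 1 ≤ d') (e : ℝ) (he : 0 < e) (he1 : e ≤ 1 / 16) :
    ∃ r : ℕ, ∃ C : ℝ, 0 < C ∧ ∀ N q : ℕ,
    ∀ Z : ℝ, 1 ≤ q → 1 ≤ Z → Z ≤ q → Z ≤ Real.log N ^ (2 / (1 + 4 * e) : ℝ) → ∀ T : ℕ, (T : ℝ) ≤ K0 * Z ^ A →
    ∀ S ⊆ range N, Pat r d' q T Z S → (S.card : ℝ) ≤ C * N * Z ^ (-(1 / 2) + 2 * e) := by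
  set β : ℝ := 2 / (1 + 4 * e) with hβ
  have hβ0 : 0 < β := by positivity
  have hβe : β * (1 / 2 + 2 * e) = 1 := by
    rw [hβ]
    have : (1 + 4 * e) ≠ 0 := by positivity
    field_simp
    ring
  have hβ2 : β ≤ 2 := by
    rw [hβ, div_le_iff₀ (by positivity)]
    linarith
  have hβ1 : β * (1 / 2 - e) ≤ 1 - 2 * e := by
    have h1 : β * (1 / 2 - e) = β * (1 / 2 + 2 * e) - 3 * e * β := by ring
    have h2 : 1 ≤ β := by
      rw [hβ, le_div_iff₀ (by positivity)]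
      linarith
    rw [h1, hβe]
    nlinarith
  obtain ⟨s, hs2, hs⟩ : ∃ s : ℕ, 2 ≤ s ∧ 1 ≤ e * s := by
    refine ⟨⌈1 / e⌉₊ + 2, by omega, ?_⟩
    have h1 := Nat.le_ceil (1 / e)
    push_cast
    have h2 : e * (1 / e) = 1 := by field_simp
    rw [mul_add]
    have h3 := mul_le_mul_of_nonneg_left h1 he.le
    linarith
  obtain ⟨t, ht1, ht⟩ : ∃ t : ℕ, 1 ≤ t ∧ 1 / (t : ℝ) ≤ e := by
    refine ⟨⌈1 / e⌉₊ + 1, by omega, ?_⟩
    have h1 := Nat.le_ceil (1 / e)
    rw [div_le_iff₀ (by positivity)]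
    push_cast
    have h2 : e * (1 / e) = 1 := by field_simp
    rw [mul_add]
    have h3 := mul_le_mul_of_nonneg_left h1 he.le
    linarith
  obtain ⟨r, hr⟩ : ∃ r : ℕ, (A : ℝ) + d' ≤ 2 * e * (r + 1) := by
    refine ⟨⌈((A : ℝ) + d') / (2 * e)⌉₊, ?_⟩
    have h1 := Nat.le_ceil (((A : ℝ) + d') / (2 * e))
    rw [div_le_iff₀ (by positivity)] at h1
    have h2 : (⌈((A : ℝ) + d') / (2 * e)⌉₊ : ℝ) * (2 * e) ≤
      2 * e * ((⌈((A : ℝ) + d') / (2 * e)⌉₊ : ℝ) + 1) := by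
      rw [mul_add, mul_comm]
      linarith
    linarith
  have hd'1 : (1 : ℝ) ≤ d' := by exact_mod_cast hd'
  have hr8 : ((A : ℝ) + d') * 8 ≤ r + 1 := by
    have h1 : 2 * e * ((r : ℝ) + 1) ≤ 2 * (1 / 16) * ((r : ℝ) + 1) := by gcongr
    linarith
  have hr1 : 1 ≤ r := by
    have h1 : (1 : ℝ) ≤ r := by
      have : (0 : ℝ) ≤ A := by positivity
      linarith
    exact_mod_cast h1
  have hdr : d' ≤ r + 1 := by
    have h1 : (d' : ℝ) ≤ r + 1 := by
      have : (0 : ℝ) ≤ A := by positivity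
      linarith
    exact_mod_cast h1
  obtain ⟨Cs, hCs, htail⟩ := tail_wind s hs2
  obtain ⟨Cr, hCr, hcls⟩ := sum_clsE_le r d' t hr1 hdr ht1
  -- the eventual conditions
  have hnp : Tendsto (fun N : ℕ => (np N : ℝ)) atTop atTop :=
    tendsto_natCast_atTop_atTop.comp np_strictMono.tendsto_atTop
  have hev : ∀ᶠ N : ℕ in atTop, (∀ L k : ℕ, s ≤ k →
      ∑ m ∈ (Icc 1 ⌊(np N : ℝ)⌋₊).filter (fun m => k < wind L m), (wind L m : ℝ) ≤
      Cs * k * (np N * (((L : ℝ) + 1) / (k * Real.log (np N))) ^ s + (((L : ℝ) + 1) / k) ^ s)) ∧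
      (∀ L q : ℕ, 1 ≤ q → ∀ Z : ℝ, 1 ≤ Z → Z ≤ q → Z ≤ L →
        ∀ g : Fin (r + 1) → (Fin (r + 1) → ℕ) → ℤ,
        (∀ l e e', (∀ j : Fin (r + 1), (j : ℕ) < d' → e j = e' j) → g l e = g l e') →
          ∑ E ∈ clsE r L q d' g, (tupleCount (np N) E : ℝ) ≤
            Cr * (np N / Real.log (np N) ^ (r + 1)) * ((L : ℝ) + 1) ^ (r + 1) *
              (Z ^ (r + 1 - d')) ^ (-(1 - 1 / (t : ℝ)))) ∧
      (np N : ℝ) ≤ 9 * (N * Real.log N) ∧
      Real.log (np N) ^ (s + 1) ≤ np N ∧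
      Real.log (np N) ≤ 2 * Real.log N ∧
      8 * Real.log N ^ 3 ≤ N ∧ 2 ≤ Real.log N ∧ ((r : ℝ) + 1) * Real.log N ^ 2 ≤ N := by
    have e1 := hnp.eventually htail
    have e2 := hnp.eventually hcls
    have e3 : ∀ᶠ N : ℕ in atTop, Real.log (np N) ^ (s + 1) ≤ 1 * (np N : ℕ) :=
      np_strictMono.tendsto_atTop.eventually (log_pow_le_nat (s + 1) one_pos)
    have e4 : ∀ᶠ N : ℕ in atTop, Real.log N ^ 3 ≤ (1 / 8) * N := log_pow_le_nat 3 (by norm_num)
    have e5 : ∀ᶠ N : ℕ in atTop, Real.log N ^ 2 ≤ (1 / ((r : ℝ) + 1)) * N :=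
      log_pow_le_nat 2 (by positivity)
    have e6 : ∀ᶠ N : ℕ in atTop, Real.log N ^ 1 ≤ (1 / 9) * N := log_pow_le_nat 1 (by norm_num)
    filter_upwards [e1, e2, e3, e4, e5, e6, np_le, tendsto_log_natCast.eventually_ge_atTop 2,
      eventually_ge_atTop 1] with N h1 h2 h3 h4 h5 h6 h7 h8 h9
    refine ⟨h1, h2, h7, by linarith, ?_, by linarith, h8, ?_⟩
    · have hN : (1 : ℝ) ≤ N := by exact_mod_cast h9
      have hp : (0 : ℝ) < np N := by exact_mod_cast (np_prime N).pos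
      have h10 : (np N : ℝ) ≤ (N : ℝ) ^ 2 := by
        refine h7.trans ?_
        rw [pow_one] at h6
        nlinarith
      calc Real.log (np N) ≤ Real.log ((N : ℝ) ^ 2) := Real.log_le_log hp h10
        _ = 2 * Real.log N := by rw [Real.log_pow]; norm_num
    · rw [one_div, ← div_eq_inv_mul, le_div_iff₀ (by positivity)] at h5
      linarith
  rw [eventually_atTop] at hev
  obtain ⟨N0, hev⟩ := hev
  set Z0 : ℝ := max (Real.log N0 ^ β + 1) (max (4 + (2 : ℝ) ^ (1 / e)) (((s : ℝ) + 1) ^ 4)) with hZ0def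
  have hZ064 : 4 + (2 : ℝ) ^ (1 / e) ≤ Z0 := (le_max_left _ _).trans (le_max_right _ _)
  have h2e0 : 0 < (2 : ℝ) ^ (1 / e) := by positivity
  have hZ04 : 4 ≤ Z0 := by linarith
  have hZ0s : ((s : ℝ) + 1) ^ 4 ≤ Z0 := (le_max_right _ _).trans (le_max_right _ _)
  have hZ0N : Real.log N0 ^ β + 1 ≤ Z0 := le_max_left _ _
  set C1 : ℝ := r + Cs * (2 * 2 ^ s) + K0 * Cr * 2 ^ (2 * r + 1) with hC1
  have hC1' : 0 ≤ C1 := by positivity
  refine ⟨r, Z0 + (9 * C1 + 2), by positivity, ?_⟩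
  intro N q Z hq hZ1 hZq hZN T hT S hS hpat
  have hZp : 0 < Z := by linarith
  have hN0 : (0 : ℝ) ≤ N := by positivity
  have hPp : 0 < Z ^ (-(1 / 2) + 2 * e) := by positivity
  rcases lt_or_ge Z Z0 with hlt | hge
  · -- small `Z`
    have h1 : (S.card : ℝ) ≤ N := by
      have := Finset.card_le_card hS
      rw [card_range] at this
      exact_mod_cast this
    have h2 : 1 ≤ Z0 * Z ^ (-(1 / 2) + 2 * e) := by
      have h3 : Z ^ (-(1 : ℝ)) ≤ Z ^ (-(1 / 2) + 2 * e) :=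
        Real.rpow_le_rpow_of_exponent_le hZ1 (by linarith)
      rw [Real.rpow_neg_one] at h3
      have h4 : 1 ≤ Z0 * Z⁻¹ := by
        rw [← div_eq_mul_inv, le_div_iff₀ hZp]
        linarith
      have h5 : Z0 * Z⁻¹ ≤ Z0 * Z ^ (-(1 / 2) + 2 * e) := by gcongr
      linarith
    have h6 : (N : ℝ) * 1 ≤ N * (Z0 * Z ^ (-(1 / 2) + 2 * e)) := by gcongr
    have h7 : 0 ≤ (9 * C1 + 2) * N * Z ^ (-(1 / 2) + 2 * e) := by positivity
    linarith
  · -- large `Z`
    have hNN : N0 ≤ N := by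
      by_contra hcon
      push Not at hcon
      rcases Nat.eq_zero_or_pos N with h0 | h0
      · subst h0
        simp only [Nat.cast_zero, Real.log_zero] at hZN
        rw [Real.zero_rpow hβ0.ne'] at hZN
        linarith
      · have h1 : Real.log N ≤ Real.log N0 := by
          apply Real.log_le_log (by exact_mod_cast h0)
          exact_mod_cast hcon.le
        have h1' : Real.log N ^ β ≤ Real.log N0 ^ β :=
          Real.rpow_le_rpow (Real.log_nonneg (by exact_mod_cast h0)) h1 hβ0.le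
        linarith
    obtain ⟨h1, h2, h3, h4, h5, h6, h7, h8⟩ := hev N hNN
    have hNpos : (0 : ℝ) < N := by
      rcases hN0.lt_or_eq with h | h
      · exact h
      · rw [← h] at h7; simp at h7; linarith
    set x : ℝ := (np N : ℝ) with hx
    set l : ℝ := Real.log x with hl
    have hxN : (N : ℝ) ≤ x := by rw [hx]; exact_mod_cast (lt_np N).le
    have hlN : Real.log N ≤ l := Real.log_le_log hNpos hxN
    have hl2 : 2 ≤ l := h7.trans hlN
    have hx0 : 0 < x := lt_of_lt_of_le hNpos hxN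
    set K : ℝ := Z ^ (1 / 2 - 2 * e) with hK
    have hK1 : 1 ≤ K := Real.one_le_rpow hZ1 (by linarith)
    have hKinv : Z ^ (-(1 / 2) + 2 * e) = K⁻¹ := by
      rw [hK, ← Real.rpow_neg hZp.le]; congr 1; ring
    set L : ℕ := ⌈K * l⌉₊ with hLdef
    have hLlow : K * l ≤ L := Nat.le_ceil _
    have hLup : (L : ℝ) + 1 ≤ 2 * K * l := by
      have h9 := Nat.ceil_lt_add_one (show 0 ≤ K * l by positivity)
      rw [← hLdef] at h9
      have h10 : (1 : ℝ) * 2 ≤ K * l := mul_le_mul hK1 hl2 (by norm_num) (by linarith)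
      linarith
    have hl0 : 0 < l := by linarith
    have hlogN0 : 0 ≤ Real.log N := by linarith
    have hZl32 : Z ≤ l ^ β :=
      hZN.trans (Real.rpow_le_rpow hlogN0 hlN hβ0.le)
    have hZhalf : ∀ c : ℝ, 0 ≤ c → Z ^ c ≤ l ^ (β * c) := by
      intro c hc
      refine (Real.rpow_le_rpow hZp.le hZl32 hc).trans (le_of_eq ?_)
      rw [← Real.rpow_mul hl0.le]
    have hZKl : Z ≤ K * l := by
      have h9 : Z ^ (1 / 2 + 2 * e) ≤ l := by
        refine (hZhalf _ (by linarith)).trans ?_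
        rw [hβe, Real.rpow_one]
      calc Z = K * Z ^ (1 / 2 + 2 * e) := by
            rw [hK, ← Real.rpow_add hZp]
            rw [show (1 / 2 - 2 * e + (1 / 2 + 2 * e) : ℝ) = 1 by ring, Real.rpow_one]
        _ ≤ K * l := by gcongr
    have hZL : Z ≤ L := by linarith
    -- the parameter `k`
    have hquart : ((s : ℝ) + 1) ≤ Z ^ (1 / 2 - e) := by
      have h9 : Z ^ ((1 : ℝ) / 4) ≤ Z ^ (1 / 2 - e) :=
        Real.rpow_le_rpow_of_exponent_le hZ1 (by linarith)
      refine le_trans ?_ h9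
      have h10 : ((s : ℝ) + 1) = (((s : ℝ) + 1) ^ 4) ^ ((1 : ℝ) / 4) := by
        rw [← Real.rpow_natCast, ← Real.rpow_mul (by positivity)]
        norm_num
      rw [h10]
      exact Real.rpow_le_rpow (by positivity) (hZ0s.trans hge) (by norm_num)
    obtain ⟨k, hkdef⟩ : ∃ k : ℕ, k = ⌈Z ^ (1 / 2 - e)⌉₊ + s := ⟨_, rfl⟩
    have hklow : Z ^ (1 / 2 - e) ≤ k := by
      have := Nat.le_ceil (Z ^ (1 / 2 - e))
      rw [hkdef]; push_cast
      have : (0 : ℝ) ≤ s := by positivity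
      linarith
    have hkup : (k : ℝ) ≤ 2 * Z ^ (1 / 2 - e) := by
      have h9 := Nat.ceil_lt_add_one (show 0 ≤ Z ^ (1 / 2 - e) by positivity)
      rw [hkdef]; push_cast
      linarith
    have hkZ : (k : ℝ) ≤ Z := by
      refine hkup.trans ?_
      have h9 : Z ^ (1 / 2 - e) ≤ Z ^ ((1 : ℝ) / 2) :=
        Real.rpow_le_rpow_of_exponent_le hZ1 (by linarith)
      have h10 : Z ^ ((1 : ℝ) / 2) * Z ^ ((1 : ℝ) / 2) = Z := by
        rw [← Real.rpow_add hZp]; norm_num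
      have h11 : 2 ≤ Z ^ ((1 : ℝ) / 2) := by
        have h12 : (4 : ℝ) ^ ((1 : ℝ) / 2) ≤ Z ^ ((1 : ℝ) / 2) :=
          Real.rpow_le_rpow (by norm_num) (hZ04.trans hge) (by norm_num)
        have h13 : (4 : ℝ) ^ ((1 : ℝ) / 2) = 2 := by
          rw [show (4 : ℝ) = 2 ^ (2 : ℝ) by norm_num, ← Real.rpow_mul (by norm_num)]
          norm_num
        linarith
      calc 2 * Z ^ (1 / 2 - e) ≤ Z ^ ((1 : ℝ) / 2) * Z ^ ((1 : ℝ) / 2) :=
            mul_le_mul h11 h9 (by positivity) (by positivity)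
        _ = Z := h10
    have hl2e : 2 ≤ l ^ (2 * e) := by
      have h9 : (2 : ℝ) ^ (1 / e) ≤ l ^ (2 : ℝ) := by
        have h10 : l ^ β ≤ l ^ (2 : ℝ) := Real.rpow_le_rpow_of_exponent_le (by linarith) hβ2
        linarith
      have h10 : ((2 : ℝ) ^ (1 / e)) ^ e ≤ (l ^ (2 : ℝ)) ^ e := Real.rpow_le_rpow h2e0.le h9 he.le
      rw [← Real.rpow_mul (by norm_num), ← Real.rpow_mul hl0.le, one_div_mul_cancel he.ne',
        Real.rpow_one] at h10
      exact h10
    have hkl : (k : ℝ) ≤ l := by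
      have h9 : Z ^ (1 / 2 - e) ≤ l ^ (1 - 2 * e) := by
        refine (hZhalf _ (by linarith)).trans ?_
        exact Real.rpow_le_rpow_of_exponent_le (by linarith) hβ1
      calc (k : ℝ) ≤ 2 * Z ^ (1 / 2 - e) := hkup
        _ ≤ l ^ (2 * e) * l ^ (1 - 2 * e) := mul_le_mul hl2e h9 (by positivity) (by positivity)
        _ = l := by
            rw [← Real.rpow_add hl0, show 2 * e + (1 - 2 * e) = 1 by ring, Real.rpow_one]
    -- the sum of the hits
    have hfl : ⌊x⌋₊ = np N := by rw [hx]; exact Nat.floor_natCast _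
    have hlow := lower S L N hS
    have hsplit := split S L (np N) r k
    obtain ⟨Φ, hΦ1, hΦ2⟩ := hpat
    have hch := choose_hits_le r d' q L k T Z x hkZ S Φ hΦ2
    rw [hfl] at hch
    have hch' : ((∑ m ∈ (Ioc (r + 1) (np N)).filter (fun m => wind L m ≤ k),
        (hitw S L m).choose (r + 1) : ℕ) : ℝ) ≤ K0 * Cr * 2 ^ (2 * r + 1) * x := by
      refine le_trans ?_ (pat_bound (L := L) (k := k) (T := T) (l := l) (t := t) (A := A) hZ1
        (by linarith) hx0.le hCr.le hT hkup (by rw [← hK]; exact hLup) he he1 ht hr hdr)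
      have h9 : ((∑ m ∈ (Ioc (r + 1) (np N)).filter (fun m => wind L m ≤ k),
        (hitw S L m).choose (r + 1) : ℕ) : ℝ) ≤
        ((∑ τ ∈ range T, ∑ I ∈ offs r k, ∑ E ∈ clsE r L q d' (Φ τ I), tupleCount x E : ℕ) : ℝ) := by
        exact_mod_cast hch
      refine h9.trans ?_
      push_cast
      set B : ℝ := Cr * (x / l ^ (r + 1)) * ((L : ℝ) + 1) ^ (r + 1) *
          (Z ^ (r + 1 - d')) ^ (-(1 - 1 / (t : ℝ))) with hB
      have hB0 : 0 ≤ B := by
        have : 0 < l := by linarith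
        positivity
      calc ∑ τ ∈ range T, ∑ I ∈ offs r k, ∑ E ∈ clsE r L q d' (Φ τ I), (tupleCount x E : ℝ)
          ≤ ∑ τ ∈ range T, ∑ I ∈ offs r k, B := by
            apply Finset.sum_le_sum
            intro τ _
            apply Finset.sum_le_sum
            intro I _
            exact h2 L q hq Z hZ1 hZq hZL (Φ τ I) (fun l e e' h => hΦ1 τ I l e e' h)
        _ = (T : ℝ) * ((offs r k).card : ℝ) * B := by
            rw [Finset.sum_const, Finset.sum_const, card_range]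
            simp only [nsmul_eq_mul]
            ring
        _ ≤ (T : ℝ) * (k : ℝ) ^ r * B := by
            have h10 : ((offs r k).card : ℝ) ≤ (k : ℝ) ^ r := by exact_mod_cast card_offs_le r k
            gcongr
    have htl : ((∑ m ∈ (Icc 1 (np N)).filter (fun m => k < wind L m), wind L m : ℕ) : ℝ) ≤
        Cs * (2 * 2 ^ s * x) := by
      have h9 := h1 L k (by omega)
      rw [hfl] at h9
      push_cast
      refine h9.trans ?_
      exact tail_boundE hZ1 (by linarith) hx0.le hkl hCs.le hkZ hklow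
        (by rw [← hK]; exact hLup) he hs h4
    -- the final count
    have hsum : ((L : ℝ) + 1) * ((S.filter (fun n => L < np n)).card : ℝ) ≤
        ((r : ℝ) + 1) * (L + 1) + C1 * x := by
      have h9 : (((L + 1) * (S.filter (fun n => L < np n)).card : ℕ) : ℝ) ≤
          (((r + 1) * (L + 1) + r * np N +
      ∑ m ∈ (Icc 1 (np N)).filter (fun m => k < wind L m), wind L m +
      ∑ m ∈ (Ioc (r + 1) (np N)).filter (fun m => wind L m ≤ k), (hitw S L m).choose (r + 1) : ℕ) : ℝ) := by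
        exact_mod_cast hlow.trans hsplit
      rw [Nat.cast_add, Nat.cast_add, Nat.cast_add] at h9
      push_cast at h9 hch' htl
      have h10 : C1 * x = r * x + Cs * (2 * 2 ^ s * x) + K0 * Cr * 2 ^ (2 * r + 1) * x := by
        rw [hC1]; ring
      rw [h10]
      linarith
    have hsmall : ((S.filter (fun n => ¬ L < np n)).card : ℝ) ≤ L := by
      have h9 : (S.filter (fun n => ¬ L < np n)).card ≤ (range L).card := by
        apply Finset.card_le_card
        intro n hn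
        rw [mem_filter] at hn
        rw [mem_range]
        have := lt_np n
        omega
      rw [card_range] at h9
      exact_mod_cast h9
    have hcard : (S.card : ℝ) = ((S.filter (fun n => L < np n)).card : ℝ) +
        ((S.filter (fun n => ¬ L < np n)).card : ℝ) := by
      exact_mod_cast (Finset.card_filter_add_card_filter_not (s := S) (fun n => L < np n)).symm
    have hbig : ((S.filter (fun n => L < np n)).card : ℝ) ≤ (r + 1) + 9 * C1 * N * K⁻¹ := by
      have hLp : (0 : ℝ) < (L : ℝ) + 1 := by positivity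
      have h9 : ((S.filter (fun n => L < np n)).card : ℝ) ≤ (r + 1) + C1 * (x / ((L : ℝ) + 1)) := by
        rw [← mul_le_mul_iff_right₀ hLp]
        refine hsum.trans (le_of_eq ?_)
        field_simp
      refine h9.trans ?_
      have h10 : x / ((L : ℝ) + 1) ≤ 9 * N * K⁻¹ := by
        rw [div_le_iff₀ hLp]
        have h11 : K * Real.log N ≤ (L : ℝ) + 1 := by
          have h13 : K * Real.log N ≤ K * l := by gcongr
          linarith
        calc x ≤ 9 * (N * Real.log N) := h3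
          _ = 9 * N * K⁻¹ * (K * Real.log N) := by field_simp
          _ ≤ 9 * N * K⁻¹ * ((L : ℝ) + 1) := by gcongr
      have h12 := mul_le_mul_of_nonneg_left h10 hC1'
      linarith
    have hKZ : K * K ≤ Z := by
      rw [hK, ← Real.rpow_add hZp]
      calc Z ^ (1 / 2 - 2 * e + (1 / 2 - 2 * e)) ≤ Z ^ (1 : ℝ) :=
            Real.rpow_le_rpow_of_exponent_le hZ1 (by linarith)
        _ = Z := Real.rpow_one _
    have hLK : (L : ℝ) ≤ N * K⁻¹ := by
      rw [← div_eq_mul_inv, le_div_iff₀ (by positivity)]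
      have h9 : (L : ℝ) ≤ 2 * K * l := by linarith
      calc (L : ℝ) * K ≤ (2 * K * l) * K := by gcongr
        _ = 2 * (K * K) * l := by ring
        _ ≤ 2 * Z * l := by gcongr
        _ ≤ 2 * Real.log N ^ 2 * (2 * Real.log N) := by
            have h10 : Z ≤ Real.log N ^ 2 := by
              refine hZN.trans ?_
              rw [← Real.rpow_natCast (Real.log N) 2]
              exact Real.rpow_le_rpow_of_exponent_le (by linarith) (by exact_mod_cast hβ2)
            gcongr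
        _ = 4 * Real.log N ^ 3 := by ring
        _ ≤ N := by
            have h10 : 0 ≤ Real.log N ^ 3 := by positivity
            linarith
    have hrK : ((r : ℝ) + 1) ≤ N * K⁻¹ := by
      rw [← div_eq_mul_inv, le_div_iff₀ (by positivity)]
      have h9 : K ≤ Real.log N ^ 2 := by
        have h10 : K ≤ K * K := le_mul_of_one_le_left (by linarith) hK1
        have h11 : Z ≤ Real.log N ^ 2 := by
          refine hZN.trans ?_
          rw [← Real.rpow_natCast (Real.log N) 2]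
          exact Real.rpow_le_rpow_of_exponent_le (by linarith) (by exact_mod_cast hβ2)
        linarith
      calc ((r : ℝ) + 1) * K ≤ (r + 1) * Real.log N ^ 2 := by gcongr
        _ ≤ N := h8
    rw [hcard, hKinv]
    have hZ0p : 0 ≤ Z0 * N * K⁻¹ := by positivity
    linarith

/-- non-concentration for `Z ≤ (log N)²` -/
theorem nc_set2 (A K0 d' : ℕ) (hd' : 1 ≤ d') (ε : ℝ) (hε : 0 < ε) : ∃ r : ℕ, ∃ C : ℝ, 0 < C ∧ ∀ N q : ℕ,
    ∀ Z : ℝ, 1 ≤ q → 1 ≤ Z → Z ≤ q → Z ≤ Real.log N ^ 2 → ∀ T : ℕ, (T : ℝ) ≤ K0 * Z ^ A →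
    ∀ S ⊆ range N, Pat r d' q T Z S → (S.card : ℝ) ≤ C * N * Z ^ (-(1 / 2) + ε) := by
  obtain ⟨e, he, he1, heε⟩ : ∃ e : ℝ, 0 < e ∧ e ≤ 1 / 16 ∧ 4 * e ≤ ε :=
    ⟨min (ε / 4) (1 / 16), by positivity, min_le_right _ _, by
      have := min_le_left (ε / 4) (1 / 16)
      linarith⟩
  obtain ⟨r, C, hC, h⟩ := nc_setE (2 * A) K0 d' hd' e he he1
  refine ⟨r, C, hC, ?_⟩
  intro N q Z hq hZ1 hZq hZN T hT S hS hpat
  have hZ0 : 0 < Z := by linarith
  set θ : ℝ := 1 / (1 + 4 * e) with hθ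
  have hθ0 : 0 < θ := by positivity
  have hθ1 : θ ≤ 1 := by
    rw [hθ, div_le_one (by positivity)]
    linarith
  have hθ2 : 1 ≤ 2 * θ := by
    rw [hθ, ← div_eq_mul_one_div, le_div_iff₀ (by positivity)]
    linarith
  set W : ℝ := Z ^ θ with hW
  have hW1 : 1 ≤ W := Real.one_le_rpow hZ1 hθ0.le
  have hWZ : W ≤ Z := by
    calc W ≤ Z ^ (1 : ℝ) := Real.rpow_le_rpow_of_exponent_le hZ1 hθ1
      _ = Z := Real.rpow_one Z
  have hlog0 : 0 ≤ Real.log N := Real.log_natCast_nonneg N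
  have hWN : W ≤ Real.log N ^ (2 / (1 + 4 * e) : ℝ) := by
    calc W ≤ (Real.log N ^ 2) ^ θ := Real.rpow_le_rpow hZ0.le hZN hθ0.le
      _ = Real.log N ^ (2 / (1 + 4 * e) : ℝ) := by
          rw [← Real.rpow_natCast (Real.log N) 2, ← Real.rpow_mul hlog0, hθ]
          congr 1
          push_cast
          ring
  have hTW : (T : ℝ) ≤ K0 * W ^ (2 * A) := by
    refine hT.trans (mul_le_mul_of_nonneg_left ?_ (by positivity))
    rw [hW, ← Real.rpow_natCast (Z ^ θ), ← Real.rpow_mul hZ0.le, ← Real.rpow_natCast Z A]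
    apply Real.rpow_le_rpow_of_exponent_le hZ1
    push_cast
    have hA0 : (0 : ℝ) ≤ A := by positivity
    nlinarith
  have hpatW : Pat r d' q T W S := by
    obtain ⟨Φ, h1, h2⟩ := hpat
    exact ⟨Φ, h1, fun n hn hnS hlast m hm => h2 n hn hnS (by linarith) m hm⟩
  have h1 := h N q W hq hW1 (hWZ.trans hZq) hWN T hTW S hS hpatW
  refine h1.trans ?_
  have h2 : W ^ (-(1 / 2) + 2 * e) ≤ Z ^ (-(1 / 2) + ε) := by
    rw [hW, ← Real.rpow_mul hZ0.le]
    apply Real.rpow_le_rpow_of_exponent_le hZ1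
    have h3 : θ * (1 + 4 * e) = 1 := by
      rw [hθ]
      exact one_div_mul_cancel (by positivity)
    nlinarith
  gcongr

end Pool.Agent.EKF
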