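import Pool.Agent.EKF.Block

/-!
# The count for one modulus, summed over the blocks
-/

set_option autoImplicit false

namespace Pool.Agent.EKF

open Finset Polynomial

/-- the number of `n < N` with `M ∣ v n + Q n` -/
noncomputable def cnt (v : ℕ → ℤ) (Q : ℚ[X]) (N M : ℕ) : ℕ :=
  ((range N).filter (fun n => (M : ℤ) ∣ v n + ⌊Q.eval (n : ℚ)⌋)).card

lemma cnt_le_blocks (v : ℕ → ℤ) (Q : ℚ[X]) (N M L : ℕ) (hL : 1 ≤ L) :
    cnt v Q N M ≤ ∑ j ∈ range (N / L + 1), ((Finset.Ico (j * L) (j * L + L)).filter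
      (fun n => (M : ℤ) ∣ v n + ⌊Q.eval (n : ℚ)⌋)).card := by
  classical
  unfold cnt
  refine le_trans (card_le_card ?_) card_biUnion_le
  intro n hn
  rw [mem_filter, mem_range] at hn
  rw [mem_biUnion]
  refine ⟨n / L, ?_, ?_⟩
  · rw [mem_range]
    exact Nat.lt_succ_of_le (Nat.div_le_div_right hn.1.le)
  · rw [mem_filter, mem_Ico]
    refine ⟨⟨Nat.div_mul_le_self n L, ?_⟩, hn.2⟩
    have h1 := Nat.div_add_mod n L
    have h2 := Nat.mod_lt n hL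
    rw [mul_comm] at h1
    omega

theorem perq (Q : ℚ[X]) (hQi : ∀ m : ℤ, ∃ k : ℤ, Q.eval (m : ℚ) = k)
    (hlc : 0 < Q.leadingCoeff) : ∃ C0 : ℝ, 1 ≤ C0 ∧ ∀ v : ℕ → ℤ, StrictMono v → 0 ≤ v 0 →
    ∀ (N M L : ℕ) (R : ℝ), 1 ≤ L → 1 ≤ R → R ≤ L →
    (((max Q.natDegree 1 : ℕ) : ℚ) + 1) *
        (L : ℚ) ^ ((max Q.natDegree 1) * (max Q.natDegree 1)) * (L : ℚ) ^ 2 +
      |Q.coeff (max Q.natDegree 1)| * (L : ℚ) ^ ((max Q.natDegree 1) * ((max Q.natDegree 1) + 1)) < M →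
    (cnt v Q N M : ℝ) ≤ C0 * ((v ((N / L + 1) * L) : ℝ) / R + 2 * R * ((N / L + 1 : ℕ) : ℝ)) := by
  classical
  obtain ⟨C0, hC0, h⟩ := block_card Q hQi hlc
  refine ⟨C0, hC0, ?_⟩
  intro v hv hv0 N M L R hL hR hRL hM
  have hR0 : 0 < R := by linarith
  have hblock : ∀ j : ℕ, ((((Finset.Ico (j * L) (j * L + L)).filter
      (fun n => (M : ℤ) ∣ v n + ⌊Q.eval (n : ℚ)⌋)).card : ℕ) : ℝ) ≤
      C0 * (((v (j * L + L) : ℝ) - v (j * L)) / R + 2 * R) := by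
    intro j
    set Y : ℤ := v (j * L + L) - v (j * L) with hY
    have hYr : ((v (j * L + L) : ℝ) - v (j * L)) = (Y : ℝ) := by rw [hY]; push_cast; ring
    have hY0 : 0 ≤ Y := by
      have h1 : v (j * L) ≤ v (j * L + L) := hv.monotone (Nat.le_add_right _ _)
      omega
    have hYR0 : (0 : ℝ) ≤ (Y : ℝ) := by exact_mod_cast hY0
    rw [hYr]
    rcases le_or_gt Y ((L : ℤ) ^ 2) with hYL | hYL
    · have h1 := h v hv M (j * L) L Y le_rfl (by
        refine lt_of_le_of_lt ?_ hM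
        have h2 : (Y : ℚ) ≤ (L : ℚ) ^ 2 := by exact_mod_cast hYL
        gcongr)
      refine h1.trans (mul_le_mul_of_nonneg_left ?_ (by linarith))
      have h3 : √(Y : ℝ) ≤ (Y : ℝ) / R + R := by
        have h4 : √(Y : ℝ) ^ 2 = (Y : ℝ) := Real.sq_sqrt hYR0
        have h5 : 0 ≤ √(Y : ℝ) := Real.sqrt_nonneg _
        rw [div_add' _ _ _ hR0.ne', le_div_iff₀ hR0]
        nlinarith [sq_nonneg (√(Y : ℝ) - R)]
      linarith
    · have h1 : ((((Finset.Ico (j * L) (j * L + L)).filter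
          (fun n => (M : ℤ) ∣ v n + ⌊Q.eval (n : ℚ)⌋)).card : ℕ) : ℝ) ≤ L := by
        have h2 := card_filter_le (Finset.Ico (j * L) (j * L + L))
          (fun n => (M : ℤ) ∣ v n + ⌊Q.eval (n : ℚ)⌋)
        rw [Nat.card_Ico, Nat.add_sub_cancel_left] at h2
        exact_mod_cast h2
      have h3 : (L : ℝ) ≤ (Y : ℝ) / R := by
        rw [le_div_iff₀ hR0]
        have h4 : ((L : ℝ)) ^ 2 < (Y : ℝ) := by exact_mod_cast hYL
        have h5 : (0 : ℝ) ≤ L := by positivity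
        nlinarith
      have h6 : 0 ≤ (Y : ℝ) / R := by positivity
      nlinarith
  have h1 := cnt_le_blocks v Q N M L hL
  have h2 : (cnt v Q N M : ℝ) ≤ ∑ j ∈ range (N / L + 1),
      C0 * (((v (j * L + L) : ℝ) - v (j * L)) / R + 2 * R) := by
    calc (cnt v Q N M : ℝ) ≤ ((∑ j ∈ range (N / L + 1), ((Finset.Ico (j * L) (j * L + L)).filter
          (fun n => (M : ℤ) ∣ v n + ⌊Q.eval (n : ℚ)⌋)).card : ℕ) : ℝ) := by exact_mod_cast h1
      _ = ∑ j ∈ range (N / L + 1), ((((Finset.Ico (j * L) (j * L + L)).filter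
          (fun n => (M : ℤ) ∣ v n + ⌊Q.eval (n : ℚ)⌋)).card : ℕ) : ℝ) := by push_cast; rfl
      _ ≤ _ := sum_le_sum fun j _ => hblock j
  refine h2.trans ?_
  rw [← mul_sum]
  refine mul_le_mul_of_nonneg_left ?_ (by linarith)
  rw [sum_add_distrib, ← sum_div, sum_const, card_range, nsmul_eq_mul]
  have h3 : ∑ j ∈ range (N / L + 1), ((v (j * L + L) : ℝ) - v (j * L)) =
      (v ((N / L + 1) * L) : ℝ) - v (0 * L) := by
    have h4 := sum_range_sub (fun j => (v (j * L) : ℝ)) (N / L + 1)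
    rw [← h4]
    refine sum_congr rfl fun j _ => ?_
    rw [add_mul, one_mul]
  rw [h3, zero_mul]
  have h5 : (0 : ℝ) ≤ v 0 := by exact_mod_cast hv0
  have h6 : ((v ((N / L + 1) * L) : ℝ) - v 0) / R ≤ (v ((N / L + 1) * L) : ℝ) / R := by
    gcongr
    linarith
  have h7 : ((N / L + 1 : ℕ) : ℝ) * (2 * R) = 2 * R * ((N / L + 1 : ℕ) : ℝ) := by ring
  rw [h7]
  linarith

end Pool.Agent.EKF
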