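import Pool.Agent.EKF.Large

/-!
# Summation over the large primes
-/

set_option autoImplicit false

namespace Pool.Agent.EKF

open Finset Polynomial Filter
open Pool.Agent.PnPoly.NC (np np_strictMono np_le)

lemma lam_tendsto : Tendsto (fun N : ℕ => (Lam N : ℝ)) atTop atTop := by
  refine tendsto_atTop_mono (fun N => Nat.le_ceil (Real.log N)) ?_
  exact Real.tendsto_log_atTop.comp tendsto_natCast_atTop_atTop

lemma lam_sq : ∀ᶠ N : ℕ in atTop, (Lam N : ℝ) ^ 2 ≤ N := by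
  have h1 : ∀ᶠ N : ℕ in atTop, 9 * Real.log N ^ 2 ≤ N := by
    have h2 := (Real.isLittleO_pow_log_id_atTop (n := 2)).bound (by norm_num : (0 : ℝ) < 1 / 9)
    have h3 := tendsto_natCast_atTop_atTop (R := ℝ) |>.eventually h2
    filter_upwards [h3, eventually_ge_atTop 1] with N hN hN1
    simp only [id, Real.norm_eq_abs] at hN
    rw [abs_of_nonneg (by positivity), abs_of_nonneg (by positivity)] at hN
    linarith
  have h4 : ∀ᶠ N : ℕ in atTop, 1 ≤ Real.log N :=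
    (Real.tendsto_log_atTop.comp tendsto_natCast_atTop_atTop).eventually_ge_atTop 1
  filter_upwards [h1, h4] with N hN1 hN4
  have h5 : (Lam N : ℝ) < Real.log N + 1 := Nat.ceil_lt_add_one (by linarith)
  have h6 : (0 : ℝ) ≤ Lam N := by positivity
  nlinarith

lemma sum_sq_big : ∀ᶠ N : ℕ in atTop,
    (∑ q ∈ bigQ N, (q : ℝ) ^ 2 * (Lam N : ℝ)) ^ 3 ≤ (N : ℝ) ^ 2 := by
  classical
  filter_upwards [lam_sq] with N hN
  rcases (bigQ N).eq_empty_or_nonempty with he | hne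
  · rw [he, sum_empty, zero_pow (by norm_num)]
    positivity
  · set b := (bigQ N).max' hne with hb
    have hbm : b ∈ bigQ N := (bigQ N).max'_mem hne
    have hb20 : b ^ 20 ≤ N := by
      unfold bigQ at hbm
      exact (mem_filter.mp hbm).2.2.2
    have hb1 : 1 ≤ b := by
      unfold bigQ at hbm
      exact (mem_filter.mp hbm).2.1
    have hsub : bigQ N ⊆ Icc 1 b := by
      intro q hq
      rw [mem_Icc]
      refine ⟨?_, (bigQ N).le_max' q hq⟩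
      unfold bigQ at hq
      exact (mem_filter.mp hq).2.1
    have hcard : (bigQ N).card ≤ b := by
      have := card_le_card hsub
      rwa [Nat.card_Icc, Nat.add_sub_cancel] at this
    have hb1r : (1 : ℝ) ≤ b := by exact_mod_cast hb1
    have h1 : ∑ q ∈ bigQ N, (q : ℝ) ^ 2 * (Lam N : ℝ) ≤ (b : ℝ) ^ 3 * (Lam N : ℝ) := by
      have h2 : ∀ q ∈ bigQ N, (q : ℝ) ^ 2 * (Lam N : ℝ) ≤ (b : ℝ) ^ 2 * (Lam N : ℝ) := by
        intro q hq
        have h3 : (q : ℝ) ≤ b := by exact_mod_cast (bigQ N).le_max' q hq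
        gcongr
      refine (sum_le_card_nsmul _ _ _ h2).trans ?_
      rw [nsmul_eq_mul]
      have h4 : ((bigQ N).card : ℝ) ≤ b := by exact_mod_cast hcard
      have h5 : (0 : ℝ) ≤ (b : ℝ) ^ 2 * (Lam N : ℝ) := by positivity
      nlinarith
    have h0 : (0 : ℝ) ≤ ∑ q ∈ bigQ N, (q : ℝ) ^ 2 * (Lam N : ℝ) :=
      sum_nonneg fun q _ => by positivity
    have h6 : (∑ q ∈ bigQ N, (q : ℝ) ^ 2 * (Lam N : ℝ)) ^ 3 ≤ ((b : ℝ) ^ 3 * (Lam N : ℝ)) ^ 3 :=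
      pow_le_pow_left₀ h0 h1 3
    have h7 : (((b : ℝ) ^ 3 * (Lam N : ℝ)) ^ 3) ^ 2 ≤ ((N : ℝ) ^ 2) ^ 2 := by
      have h8 : (b : ℝ) ^ 18 ≤ N := by
        have h9 : (b : ℝ) ^ 20 ≤ N := by exact_mod_cast hb20
        exact (pow_le_pow_right₀ hb1r (by norm_num)).trans h9
      have h10 : ((Lam N : ℝ) ^ 2) ^ 3 ≤ (N : ℝ) ^ 3 := pow_le_pow_left₀ (by positivity) hN 3
      calc (((b : ℝ) ^ 3 * (Lam N : ℝ)) ^ 3) ^ 2 = (b : ℝ) ^ 18 * ((Lam N : ℝ) ^ 2) ^ 3 := by ring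
        _ ≤ (N : ℝ) * (N : ℝ) ^ 3 := mul_le_mul h8 h10 (by positivity) (by positivity)
        _ = ((N : ℝ) ^ 2) ^ 2 := by ring
    have h11 := (sq_le_sq₀ (by positivity) (by positivity)).mp h7
    exact h6.trans h11

theorem large_sum (Q : ℚ[X]) (hQi : ∀ m : ℤ, ∃ k : ℤ, Q.eval (m : ℚ) = k)
    (hlc : 0 < Q.leadingCoeff) (d k : ℕ) (hQd : Q.natDegree ≤ d)
    (hk : 12 * ((d + 1) ^ 2 + (d + 1) + 2) + 1 ≤ k) (η : ℝ) (hη : 0 < η) :
    ∀ᶠ N : ℕ in atTop, ∑ q ∈ bigQ N, (cnt vp Q N (q ^ k) : ℝ) ≤ η * N := by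
  classical
  obtain ⟨C0, hC0, h⟩ := perq_big Q hQi hlc d k hQd hk
  obtain ⟨w, hw⟩ := exists_nat_gt (152 * C0 / η)
  have hC00 : 0 < C0 := by linarith
  have hbig : ∀ᶠ N : ℕ in atTop, (4 * C0 / η) ^ 3 ≤ (N : ℝ) :=
    tendsto_natCast_atTop_atTop.eventually_ge_atTop _
  filter_upwards [h, sum_sq_big, lam_tendsto.eventually_gt_atTop ((w : ℝ) ^ 8), hbig,
    eventually_ge_atTop 1] with N h1 h2 h3 h4 h5
  have hN0 : (0 : ℝ) < N := by exact_mod_cast h5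
  have e1 : ∑ q ∈ bigQ N, (cnt vp Q N (q ^ k) : ℝ) ≤
      C0 * (38 * (N * ∑ q ∈ bigQ N, ((q : ℝ) ^ 2)⁻¹) +
        2 * ∑ q ∈ bigQ N, (q : ℝ) ^ 2 * (Lam N : ℝ)) := by
    refine (sum_le_sum h1).trans (le_of_eq ?_)
    rw [← mul_sum, sum_add_distrib, ← mul_sum, ← mul_sum, ← mul_sum]
  have e2 : ∑ q ∈ bigQ N, ((q : ℝ) ^ 2)⁻¹ ≤ 2 / ((w : ℝ) + 1) := by
    refine le_trans (sum_le_sum_of_subset_of_nonneg (t := Ioo w (N + 1)) ?_ ?_)
      (sum_Ioo_inv_sq_le w (N + 1))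
    · intro q hq
      unfold bigQ at hq
      rw [mem_filter, mem_range] at hq
      rw [mem_Ioo]
      refine ⟨?_, hq.1⟩
      have h6 : w ^ 8 < q ^ 8 := by
        have : w ^ 8 < Lam N := by exact_mod_cast h3
        have h7 := hq.2.2.1
        omega
      exact lt_of_pow_lt_pow_left₀ 8 (Nat.zero_le _) h6
    · intro q _ _
      positivity
  have e3 : ∑ q ∈ bigQ N, (q : ℝ) ^ 2 * (Lam N : ℝ) ≤ η / (4 * C0) * N := by
    by_contra hcon
    push Not at hcon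
    have h6 : (η / (4 * C0) * N) ^ 3 < (N : ℝ) ^ 2 :=
      lt_of_lt_of_le (pow_lt_pow_left₀ hcon (by positivity) (by norm_num)) h2
    have h7 : (η / (4 * C0)) ^ 3 * (4 * C0 / η) ^ 3 = 1 := by
      rw [← mul_pow]
      have : η / (4 * C0) * (4 * C0 / η) = 1 := by field_simp
      rw [this, one_pow]
    have h8 : (N : ℝ) ^ 2 ≤ (η / (4 * C0) * N) ^ 3 := by
      have h9 : (0 : ℝ) < (η / (4 * C0)) ^ 3 := by positivity
      calc (N : ℝ) ^ 2 = ((η / (4 * C0)) ^ 3 * (4 * C0 / η) ^ 3) * (N : ℝ) ^ 2 := by rw [h7, one_mul]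
        _ = (η / (4 * C0)) ^ 3 * ((4 * C0 / η) ^ 3 * (N : ℝ) ^ 2) := by ring
        _ ≤ (η / (4 * C0)) ^ 3 * ((N : ℝ) * (N : ℝ) ^ 2) := by gcongr
        _ = (η / (4 * C0) * N) ^ 3 := by ring
    linarith
  refine e1.trans ?_
  have e4 : 38 * (N * ∑ q ∈ bigQ N, ((q : ℝ) ^ 2)⁻¹) ≤ 38 * (N * (2 / ((w : ℝ) + 1))) := by
    gcongr
  have e5 : C0 * (38 * (N * (2 / ((w : ℝ) + 1)))) ≤ η / 2 * N := by
    have hw1 : 152 * C0 / η < (w : ℝ) + 1 := by linarith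
    rw [div_lt_iff₀ hη] at hw1
    have hw0 : (0 : ℝ) < (w : ℝ) + 1 := by positivity
    have : C0 * (38 * (N * (2 / ((w : ℝ) + 1)))) = 76 * C0 * N / ((w : ℝ) + 1) := by
      field_simp
      ring
    rw [this, div_le_iff₀ hw0]
    nlinarith
  have e6 : C0 * (2 * (η / (4 * C0) * N)) = η / 2 * N := by
    field_simp
    ring
  calc C0 * (38 * (N * ∑ q ∈ bigQ N, ((q : ℝ) ^ 2)⁻¹) + 2 * ∑ q ∈ bigQ N, (q : ℝ) ^ 2 * (Lam N : ℝ))
      ≤ C0 * (38 * (N * (2 / ((w : ℝ) + 1))) + 2 * (η / (4 * C0) * N)) := by gcongr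
    _ = C0 * (38 * (N * (2 / ((w : ℝ) + 1)))) + C0 * (2 * (η / (4 * C0) * N)) := by ring
    _ ≤ η / 2 * N + η / 2 * N := by rw [e6]; linarith
    _ = η * N := by ring

end Pool.Agent.EKF
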